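import Pool.Agent.Q57.FT.Bpf
import Pool.Agent.Q57.FT.Cvr
import Pool.Agent.Q57.FH.Top

/-!
Toroidal divisors on covers of products of projective spaces: the main theorems.
-/

set_option autoImplicit false
set_option linter.overlappingInstances false
set_option linter.unusedSectionVars false
set_option maxHeartbeats 1000000

open FF MvPolynomial Pool.Agent.W603.LV Pool.Agent.W602.GT Pool.Agent.W602.Cov
open Pool.Agent.TH756.PR Pool.Agent.TH122.AB Pool.Agent.TH756.PN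
open Pool.Agent.Y169.CH Pool.Agent.Q57.TP Pool.Agent.Q57.TQ Pool.Agent.Q57.GM
open Pool.Agent.Q57.GH Pool.Agent.Q57.FG Pool.Agent.Q57.FH

namespace Pool.Agent.Q57.FT

variable {r N R p : ℕ} {n : Fin r → ℕ} {K : Type} [Field K] [Algebra ℂ K]

theorem datH_min {P : Place ℂ K} {dF : Fin r → ℕ} {x : ∀ i, Fin (n i + 1) → K}
    {F : ∀ i, MvPolynomial (Fin (n i + 1)) ℂ} {α : Fin r → ℤ} {l : ∀ i, Fin (n i + 1)}
    {v : Fin r → ℕ} (h : DatH P dF x F α l v) (i : Fin r) : minO (x i) P = α i := by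
  apply le_antisymm
  · rw [← h.h2 i]
    exact minO_le _ _ _
  · exact Finset.le_inf' _ _ fun j _ => h.h1 i j

/-- **The set-up**: coordinates in which the divisors are toroidal. -/
theorem setup (hr : 1 ≤ r) (hn : ∀ i, 1 ≤ n i) (hN : N = ∑ i, n i)
    {F : ∀ i, MvPolynomial (Fin (n i + 1)) ℂ} {d : Fin r → ℕ} (hd : ∀ i, 1 ≤ d i)
    (hh : ∀ i, (F i).IsHomogeneous (d i)) (hs : ∀ i, SmF (F i))
    {x : ∀ i, Fin (n i + 1) → K} (hx0 : ∀ i, x i 0 ≠ 0)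
    (hbas : IsTranscendenceBasis ℂ (aff x)) {m : Fin R → ℕ} (hm : ∀ j, 0 < m j)
    {a : Fin R → Fin r → ℕ} (hdiv : ∀ j i, m j ∣ a j i * d i) {z : Fin R → K}
    (hz : ∀ j, z j ^ m j = ∏ i, (aeval (x i) (F i) / x i 0 ^ d i) ^ a j i)
    (hgen : IntermediateField.adjoin ℂ (Set.range (aff x) ∪ Set.range z) = ⊤) :
    ∃ (N' : ℕ) (e : ((i : Fin r) × Fin (n i)) ≃ Fin (N' + 1)) (Φ : Blk ℂ (N' + 1) r)
      (C : Cvr Φ K R) (x' : ∀ i, Fin (n i + 1) → K) (F' : ∀ i, MvPolynomial (Fin (n i + 1)) ℂ),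
      N = N' + 1 ∧ Smo Φ ∧ C.M = m ∧ C.a = a ∧ Mon e C d x' F' ∧
      (∀ P v, MultH C P v → v = mulQ F d x P) ∧
      ∀ (c : (Fin r → ℕ) → ℚ) (β : Fin r → ℤ) (δ : Place ℂ K → ℚ), c 0 = 0 →
        (∀ P, δ P = c (mulQ F d x P) - ∑ t, (β t : ℚ) * minO (x t) P) →
        CoefT d x' F' c β δ := by
  classical
  obtain ⟨N', hN'⟩ : ∃ N', N = N' + 1 := by
    have h1 : n ⟨0, hr⟩ ≤ ∑ i, n i :=
      Finset.single_le_sum (f := n) (fun _ _ => Nat.zero_le _) (Finset.mem_univ _)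
    have h2 := hn ⟨0, hr⟩
    exact ⟨N - 1, by omega⟩
  let e : ((i : Fin r) × Fin (n i)) ≃ Fin (N' + 1) :=
    finSigmaFinEquiv.trans (finCongr (by omega))
  have hbas' : IsTranscendenceBasis ℂ (uu e x) := basis_uu e hbas
  have hrange : Set.range (uu e x) = Set.range (aff x) := by
    ext z
    constructor
    · rintro ⟨b, rfl⟩
      exact ⟨e.symm b, rfl⟩
    · rintro ⟨a, rfl⟩
      refine ⟨e a, ?_⟩
      change aff x (e.symm (e a)) = _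
      rw [e.symm_apply_apply]
  obtain ⟨Φ, hΦ, hΦn, hΦD, C, hCM, hCa, hvv, x', F', hx', hs', hh', hFx', hZ, hFZ, hτ, hmin⟩ :=
    exists_cvr_m e hn hx0 hbas' hd hs hh hm hz hdiv (by rw [hrange]; exact hgen)
  have H : Mon e C d x' F' := ⟨hn, hx', hs', hh', hFx', hZ, hFZ, hτ, hΦn, hΦD⟩
  refine ⟨N', e, Φ, C, x', F', hN', hΦ, hCM, hCa, H, hvv, fun c β δ hc0 hδ => ⟨hc0,
    fun P α l v hdat => ?_⟩⟩
  rw [hδ, ← hvv P v (hdat.multH H)]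
  congr 1
  refine Finset.sum_congr rfl fun t _ => ?_
  rw [hmin, datH_min hdat]

/-- **The nef cone.** -/
theorem main_nefcone (hr : 1 ≤ r) (hn : ∀ i, 1 ≤ n i) (hN : N = ∑ i, n i)
    {F : ∀ i, MvPolynomial (Fin (n i + 1)) ℂ} {d : Fin r → ℕ} (hd : ∀ i, 1 ≤ d i)
    (hh : ∀ i, (F i).IsHomogeneous (d i)) (hs : ∀ i, SmF (F i))
    {x : ∀ i, Fin (n i + 1) → K} (hx0 : ∀ i, x i 0 ≠ 0)
    (hbas : IsTranscendenceBasis ℂ (aff x)) {m : Fin R → ℕ} (hm : ∀ j, 0 < m j)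
    {a : Fin R → Fin r → ℕ} (hdiv : ∀ j i, m j ∣ a j i * d i) {z : Fin R → K}
    (hz : ∀ j, z j ^ m j = ∏ i, (aeval (x i) (F i) / x i 0 ^ d i) ^ a j i)
    (hgen : IntermediateField.adjoin ℂ (Set.range (aff x) ∪ Set.range z) = ⊤)
    {S : Finset (Finset (Fin r → ℕ))} (hS : Fan m a S) {c : Fin p → (Fin r → ℕ) → ℚ}
    (hc0 : ∀ i, c i 0 = 0) {u : Finset (Fin r → ℕ) → Fin p → Fin r → ℚ} (hu : LinC m a S c u)
    {β : Fin p → Fin r → ℤ} {δ : Fin p → Place ℂ K → ℚ}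
    (hδ : ∀ i P, δ i P = c i (mulQ F d x P) - ∑ t, (β i t : ℚ) * minO (x t) P) :
    ∃ (N0 : ℕ) (h : Fin N0 → Fin p → ℤ), (∀ b, Bpf N δ (h b)) ∧
      ∀ lam : Fin p → ℝ, (NefZ N δ lam ↔ Ineq S d c β u lam) ∧
        (NefZ N δ lam ↔ ∃ t : Fin N0 → ℝ, (∀ b, 0 ≤ t b) ∧ ∀ i, lam i = ∑ b, t b * h b i) := by
  obtain ⟨N', e, Φ, C, x', F', rfl, hΦ, rfl, rfl, H, hvv, hco⟩ :=
    setup (N := N) hr hn hN hd hh hs hx0 hbas hm hdiv hz hgen
  exact cone_main H hr hd hΦ hvv (fun i => hco (c i) (β i) (δ i) (hc0 i) (hδ i)) hS hu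

/-- **Nef Cartier divisors are base point free.** -/
theorem main_cartier (hr : 1 ≤ r) (hn : ∀ i, 1 ≤ n i) (hN : N = ∑ i, n i)
    {F : ∀ i, MvPolynomial (Fin (n i + 1)) ℂ} {d : Fin r → ℕ} (hd : ∀ i, 1 ≤ d i)
    (hh : ∀ i, (F i).IsHomogeneous (d i)) (hs : ∀ i, SmF (F i))
    {x : ∀ i, Fin (n i + 1) → K} (hx0 : ∀ i, x i 0 ≠ 0)
    (hbas : IsTranscendenceBasis ℂ (aff x)) {m : Fin R → ℕ} (hm : ∀ j, 0 < m j)
    {a : Fin R → Fin r → ℕ} (hdiv : ∀ j i, m j ∣ a j i * d i) {z : Fin R → K}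
    (hz : ∀ j, z j ^ m j = ∏ i, (aeval (x i) (F i) / x i 0 ^ d i) ^ a j i)
    (hgen : IntermediateField.adjoin ℂ (Set.range (aff x) ∪ Set.range z) = ⊤)
    {S : Finset (Finset (Fin r → ℕ))} (hS : Fan m a S) {c : Fin p → (Fin r → ℕ) → ℚ}
    (hc0 : ∀ i, c i 0 = 0) {u : Finset (Fin r → ℕ) → Fin p → Fin r → ℚ} (hu : LinC m a S c u)
    {β : Fin p → Fin r → ℤ} {δ : Fin p → Place ℂ K → ℚ}
    (hδ : ∀ i P, δ i P = c i (mulQ F d x P) - ∑ t, (β i t : ℚ) * minO (x t) P)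
    {μ : Fin p → ℤ} (hint : ∀ v, Adm m a v → ∃ z : ℤ, ∑ i, (μ i : ℚ) * c i v = z) :
    (NefZ N δ (fun i => (μ i : ℝ)) ↔ Bpf N δ μ) ∧
      (NefZ N δ (fun i => (μ i : ℝ)) ↔ Ineq S d c β u fun i => (μ i : ℝ)) := by
  classical
  obtain ⟨N', e, Φ, C, x', F', rfl, hΦ, rfl, rfl, H, hvv, hco⟩ :=
    setup (N := N) hr hn hN hd hh hs hx0 hbas hm hdiv hz hgen
  have hcf := fun i => hco (c i) (β i) (δ i) (hc0 i) (hδ i)
  have h1 : NefZ (N' + 1) δ (fun i => (μ i : ℝ)) → Ineq S d c β u fun i => (μ i : ℝ) :=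
    fun hn => ineq_of_nef H hr hd hΦ hvv hcf hS hu hn
  have h2 : (Ineq S d c β u fun i => (μ i : ℝ)) → Bpf (N' + 1) δ μ := by
    intro h
    refine bpf_cartier H hr hcf hS hu (fun σ hσ t => ?_) (fun σ hσ s hs => ?_) hint
    · have h2 := (h σ hσ).1 t
      beta_reduce at h2
      exact_mod_cast h2
    · obtain ⟨τ, hτ, hs'⟩ := Finset.mem_biUnion.1 hs
      have h2 := (h σ hσ).2 τ hτ s hs'
      beta_reduce at h2
      have h3 : - ∑ i, (μ i : ℚ) * c i s ≤ ∑ k, (∑ i, (μ i : ℚ) * u σ i k) * (s k : ℚ) := by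
        exact_mod_cast h2
      refine le_trans (le_of_eq ?_) h3
      rw [← Finset.sum_neg_distrib]
      exact Finset.sum_congr rfl fun i _ => by ring
  have h3 : Bpf (N' + 1) δ μ → NefZ (N' + 1) δ (fun i => (μ i : ℝ)) := fun h =>
    nefZ_of (N0 := 1) (h := fun _ => μ) (fun _ => h) (t := fun _ => 1) (fun _ => zero_le_one)
      fun i => by simp
  exact ⟨⟨fun h => h2 (h1 h), h3⟩, ⟨h1, fun h => h3 (h2 h)⟩⟩

end Pool.Agent.Q57.FT
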