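import Pool.Agent.Q57.FT.Shift
import Pool.Agent.Q57.GE.Free

/-!
Nef divisors on toroidal models: the inequalities.
-/

set_option autoImplicit false
set_option linter.overlappingInstances false
set_option linter.unusedSectionVars false
set_option maxHeartbeats 1000000

open FF MvPolynomial Pool.Agent.W603.LV Pool.Agent.W602.GT Pool.Agent.W602.Cov
open Pool.Agent.TH756.PR Pool.Agent.TH122.AB Pool.Agent.TH756.PN
open Pool.Agent.Y169.CH Pool.Agent.Y169.CH.Cvr Pool.Agent.Q57.TP Pool.Agent.Q57.TQ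
open Pool.Agent.Q57.GM Pool.Agent.Q57.GH Pool.Agent.Q57.FG Pool.Agent.Q57.GG Pool.Agent.Q57.GE

namespace Pool.Agent.Q57.FT

section cone

variable {r R p : ℕ}

/-- a fan of full-dimensional cones which cover the vectors of multiplicities -/
structure Fan (M : Fin R → ℕ) (a : Fin R → Fin r → ℕ) (S : Finset (Finset (Fin r → ℕ))) :
    Prop where
  adm : ∀ σ ∈ S, ∀ s ∈ σ, Adm M a s
  full : ∀ σ ∈ S, ∀ f : Fin r → ℚ, ∃ q : (Fin r → ℕ) → ℚ, ∀ k, f k = ∑ s ∈ σ, q s * s k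
  cover : ∀ v, Adm M a v → ∃ σ ∈ S, InC σ v

/-- the coefficients of the divisors are linear on the cones of the fan -/
def LinC (M : Fin R → ℕ) (a : Fin R → Fin r → ℕ) (S : Finset (Finset (Fin r → ℕ)))
    (c : Fin p → (Fin r → ℕ) → ℚ) (u : Finset (Fin r → ℕ) → Fin p → Fin r → ℚ) : Prop :=
  ∀ σ ∈ S, ∀ i v, Adm M a v → InC σ v → - c i v = ∑ k, u σ i k * v k

variable {M : Fin R → ℕ} {a : Fin R → Fin r → ℕ} {S : Finset (Finset (Fin r → ℕ))}
  {c : Fin p → (Fin r → ℕ) → ℚ} {u : Finset (Fin r → ℕ) → Fin p → Fin r → ℚ}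

/-- the fan as a fan on which the function `1` is linear -/
theorem Fan.fanC (h : Fan M a S) : FanC M a S fun _ => 1 :=
  ⟨h.adm, h.full, h.cover, fun _ _ => ⟨0, fun _ _ _ => by simp⟩⟩

theorem inC_smul {σ : Finset (Fin r → ℕ)} {v : Fin r → ℕ} (h : InC σ v) (k : ℕ) :
    InC σ (k • v) := by
  obtain ⟨w, hw, hwv⟩ := h
  refine ⟨fun s => k * w s, fun s => mul_nonneg (by positivity) (hw s), fun j => ?_⟩
  simp only [Pi.smul_apply, smul_eq_mul]
  push_cast
  rw [hwv j, Finset.mul_sum]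
  exact Finset.sum_congr rfl fun s _ => by ring

theorem Fan.ray (h : Fan M a S) (hu : LinC M a S c u) (i : Fin p) (v : Fin r → ℕ) (k : ℕ)
    (hk : 1 ≤ k) (hv : Adm M a v) : - c i (k • v) ≤ k * (- c i v) := by
  obtain ⟨σ, hσ, hvσ⟩ := h.cover v hv
  rw [hu σ hσ i v hv hvσ, hu σ hσ i _ (adm_smul hv hk) (inC_smul hvσ k), Finset.mul_sum]
  refine le_of_eq (Finset.sum_congr rfl fun j _ => ?_)
  simp only [Pi.smul_apply, smul_eq_mul]
  push_cast
  ring

theorem Fan.mem_adm (h : Fan M a S) : ∀ s ∈ S.biUnion id, Adm M a s := by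
  intro s hs
  obtain ⟨σ, hσ, hsσ⟩ := Finset.mem_biUnion.1 hs
  exact h.adm σ hσ s hsσ

theorem Fan.gen (h : Fan M a S) (hu : LinC M a S c u) (v : Fin r → ℕ) (hv : Adm M a v) :
    ∃ w : (Fin r → ℕ) → ℚ, (∀ s, 0 ≤ w s) ∧
      (∀ k, (v k : ℚ) = ∑ s ∈ S.biUnion id, w s * s k) ∧
      ∀ i, - c i v ≤ ∑ s ∈ S.biUnion id, w s * (- c i s) := by
  classical
  obtain ⟨σ, hσ, w, hw, hwv⟩ := h.cover v hv
  have hsub : σ ⊆ S.biUnion id := fun s hs => Finset.mem_biUnion.2 ⟨σ, hσ, hs⟩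
  have hsum : ∀ f : (Fin r → ℕ) → ℚ, ∑ s ∈ S.biUnion id, (if s ∈ σ then w s else 0) * f s =
      ∑ s ∈ σ, w s * f s := by
    intro f
    rw [← Finset.sum_subset hsub]
    · exact Finset.sum_congr rfl fun s hs => by rw [if_pos hs]
    · intro s _ hs
      rw [if_neg hs, zero_mul]
  refine ⟨fun s => if s ∈ σ then w s else 0, fun s => ?_, fun k => ?_, fun i => ?_⟩
  · dsimp only
    split_ifs
    · exact hw s
    · exact le_rfl
  · rw [hsum fun s => (s k : ℚ), hwv k]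
  · rw [hsum fun s => - c i s, hu σ hσ i v hv ⟨w, hw, hwv⟩]
    have h1 : ∀ s ∈ σ, w s * (- c i s) = ∑ k, u σ i k * (w s * s k) := by
      intro s hs
      rw [hu σ hσ i s (h.adm σ hσ s hs) (inC_mem hs), Finset.mul_sum]
      exact Finset.sum_congr rfl fun k _ => by ring
    rw [Finset.sum_congr rfl h1, Finset.sum_comm]
    refine le_of_eq (Finset.sum_congr rfl fun k _ => ?_)
    rw [hwv k, Finset.mul_sum]

/-- the coefficients grow at most linearly -/
theorem Fan.bdd (h : Fan M a S) (hu : LinC M a S c u) : ∃ t0 : ℕ, ∀ i v, Adm M a v →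
    c i v ≤ t0 * ∑ k, (v k : ℚ) := by
  classical
  obtain ⟨t0, ht0⟩ := exists_nat_gt (∑ σ ∈ S, ∑ i, ∑ k, |u σ i k|)
  refine ⟨t0, fun i v hv => ?_⟩
  obtain ⟨σ, hσ, hvσ⟩ := h.cover v hv
  have h1 := hu σ hσ i v hv hvσ
  have h2 : ∀ k, |u σ i k| ≤ t0 := by
    intro k
    have h3 := Finset.single_le_sum (f := fun k => |u σ i k|) (fun _ _ => abs_nonneg _)
      (Finset.mem_univ k)
    have h4 := Finset.single_le_sum (f := fun i => ∑ k, |u σ i k|)
      (fun _ _ => Finset.sum_nonneg fun _ _ => abs_nonneg _) (Finset.mem_univ i)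
    have h5 := Finset.single_le_sum (f := fun σ => ∑ i, ∑ k, |u σ i k|)
      (fun _ _ => Finset.sum_nonneg fun _ _ => Finset.sum_nonneg fun _ _ => abs_nonneg _) hσ
    linarith
  have h3 : - ∑ k, u σ i k * v k ≤ t0 * ∑ k, (v k : ℚ) := by
    rw [← Finset.sum_neg_distrib, Finset.mul_sum]
    refine Finset.sum_le_sum fun k _ => ?_
    have h4 := (abs_le.1 (h2 k)).1
    have h5 : (0 : ℚ) ≤ v k := by positivity
    nlinarith
  linarith

/-- functions which are nonnegative on the generators and vanish at the interior vector -/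
theorem Fan.eq_of (h : Fan M a S) {σ : Finset (Fin r → ℕ)} (hσ : σ ∈ S)
    {f : Fin r → ℚ} (hf : ∀ s ∈ σ, 0 ≤ ∑ k, f k * s k) (h0 : ∑ k, f k * vσ σ k = 0) : f = 0 :=
  h.fanC.eq_of hσ hf h0

end cone

variable {r R N' p : ℕ} {n : Fin r → ℕ} {K : Type} [Field K] [Algebra ℂ K]
  {e : ((i : Fin r) × Fin (n i)) ≃ Fin (N' + 1)} {Φ : Blk ℂ (N' + 1) r} {C : Cvr Φ K R}
  {dF : Fin r → ℕ} {x : ∀ i, Fin (n i + 1) → K} {F : ∀ i, MvPolynomial (Fin (n i + 1)) ℂ}
  {c : Fin p → (Fin r → ℕ) → ℚ} {β : Fin p → Fin r → ℤ} {δ : Fin p → Place ℂ K → ℚ}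
  {S : Finset (Finset (Fin r → ℕ))} {u : Finset (Fin r → ℕ) → Fin p → Fin r → ℚ}

/-- the value of the coefficients at a place -/
theorem sum_coef {c : Fin p → (Fin r → ℕ) → ℚ} {β : Fin p → Fin r → ℤ}
    {δ : Fin p → Place ℂ K → ℚ} (hcf : ∀ i, CoefT dF x F (c i) (β i) (δ i)) {P : Place ℂ K}
    {α : Fin r → ℤ} {l : ∀ i, Fin (n i + 1)} {v : Fin r → ℕ} (hdat : DatH P dF x F α l v)
    (μ : Fin p →₀ ℕ) :
    ∑ i, (μ i : ℚ) * δ i P = - ∑ i, (μ i : ℚ) * (- c i v) -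
      ((∑ t, bt β μ t * α t : ℤ) : ℚ) := by
  have h4 : ∀ i, (μ i : ℚ) * δ i P = - ((μ i : ℚ) * (- c i v)) -
      ∑ t, (((μ i : ℤ) * β i t * α t : ℤ) : ℚ) := by
    intro i
    rw [(hcf i).hδ P α l v hdat, mul_sub, Finset.mul_sum]
    congr 1
    · ring
    · refine Finset.sum_congr rfl fun t _ => ?_
      push_cast
      ring
  rw [Finset.sum_congr rfl fun i _ => h4 i, Finset.sum_sub_distrib, Finset.sum_neg_distrib,
    Finset.sum_comm]
  congr 1
  push_cast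
  refine Finset.sum_congr rfl fun t _ => ?_
  unfold bt
  push_cast
  rw [Finset.sum_mul]

/-- **The inequalities for nef combinations.** -/
theorem nef_ineq (H : Mon e C dF x F) (hr : 1 ≤ r) (hdF : ∀ i, 1 ≤ dF i) (hΦ : Smo Φ)
    {μ' : Place ℂ K → Fin r → ℕ} (hvv : ∀ P v, MultH C P v → v = μ' P)
    (hcf : ∀ i, CoefT dF x F (c i) (β i) (δ i)) (hS : Fan C.M C.a S)
    (hu : LinC C.M C.a S c u) (lam : Fin p → ℝ) (hn : NefF (N' + 1) δ lam)
    {σ : Finset (Fin r → ℕ)} (hσ : σ ∈ S) :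
    (∀ t, (dF t : ℝ) * ∑ i, lam i * u σ i t ≤ ∑ i, lam i * β i t) ∧
      ∀ v, Adm C.M C.a v → ∑ i, lam i * (- c i v : ℚ) ≤ ∑ k, (∑ i, lam i * u σ i k) * (v k : ℝ) := by
  classical
  obtain ⟨t0, ht0⟩ := hS.bdd hu
  obtain ⟨N0, g, f, h1, h2, h3⟩ := geoS H hdF hΦ hcf ht0 (fun i v k hk hv => hS.ray hu i v k hk hv)
    hS.mem_adm (fun v hv => hS.gen hu v hv)
  have hadm0 := hS.fanC.adm_vσ hr hσ
  obtain ⟨X, hX⟩ := C.exists_dir hadm0.1 hadm0.2
  obtain ⟨P, v', r', hP, hPv, hadm', hr', hXr⟩ := exists_place C hΦ X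
  rw [hX] at hXr
  obtain ⟨t, ht, hlt, hnv⟩ := semi_of_nefF h1 h3 lam hn P hP
  obtain ⟨α, l', v, hdat⟩ := H.exists_dat P
  have hvv' : v = v' := (hvv P v (hdat.multH H)).trans (hvv P v' hPv).symm
  subst hvv'
  have hvC : InC σ v := by
    obtain ⟨w, hw, hwv⟩ := inC_vσ σ
    have hr'q : (0 : ℚ) < r' := by exact_mod_cast hr'
    refine ⟨fun s => w s / r', fun s => div_nonneg (hw s) hr'q.le, fun k => ?_⟩
    have h1 := hwv k
    rw [hXr, Pi.smul_apply, smul_eq_mul, Nat.cast_mul] at h1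
    have h2 : ∑ s ∈ σ, w s / r' * (s k : ℚ) = (∑ s ∈ σ, w s * (s k : ℚ)) / r' := by
      rw [Finset.sum_div]
      exact Finset.sum_congr rfl fun s _ => by ring
    rw [h2, ← h1]
    field_simp
  -- the sections which do not vanish at the place
  have key : ∀ b, t b ≠ 0 → (∀ s, (dF s : ℚ) * ∑ i, (g b i : ℚ) * u σ i s ≤
      ∑ i, (g b i : ℚ) * β i s) ∧ ∀ w, Adm C.M C.a w → ∑ i, (g b i : ℚ) * (- c i w) ≤
        ∑ k, (∑ i, (g b i : ℚ) * u σ i k) * w k := by
    intro b hb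
    obtain ⟨y, l, hfb, hdeg, hadm⟩ := h2 b
    have h4 := hnv b hb
    rw [sum_coef hcf hdat, hfb] at h4
    have h5 := ord_fT_ge H hdat hdeg l
    have h6 : ((∑ i, (v i : ℤ) * y i + ∑ i, bt β (g b) i * α i : ℤ) : ℚ) ≤
        (P.ord (fT dF x F (bt β (g b)) y l) : ℚ) := by exact_mod_cast h5
    rw [Int.cast_add] at h6
    have h7 : ((∑ i, (v i : ℤ) * y i : ℤ) : ℚ) ≤ ∑ i, (g b i : ℚ) * (- c i v) := by linarith
    have hlin : ∀ w, Adm C.M C.a w → InC σ w → ∑ i, (g b i : ℚ) * (- c i w) =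
        ∑ k, (∑ i, (g b i : ℚ) * u σ i k) * w k := by
      intro w hw hwσ
      have h8 : ∀ i, (g b i : ℚ) * (- c i w) = ∑ k, (g b i : ℚ) * u σ i k * w k := by
        intro i
        rw [hu σ hσ i w hw hwσ, Finset.mul_sum]
        exact Finset.sum_congr rfl fun k _ => by ring
      rw [Finset.sum_congr rfl fun i _ => h8 i, Finset.sum_comm]
      exact Finset.sum_congr rfl fun k _ => (Finset.sum_mul _ _ _).symm
    have hyu : (fun k => (y k : ℚ) - ∑ i, (g b i : ℚ) * u σ i k) = 0 := by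
      have hval : ∀ w : Fin r → ℕ, ∑ k, ((y k : ℚ) - ∑ i, (g b i : ℚ) * u σ i k) * w k =
          ((∑ k, (w k : ℤ) * y k : ℤ) : ℚ) - ∑ k, (∑ i, (g b i : ℚ) * u σ i k) * w k := by
        intro w
        push_cast
        rw [← Finset.sum_sub_distrib]
        exact Finset.sum_congr rfl fun k _ => by ring
      refine hS.eq_of hσ (fun s hs => ?_) ?_
      · rw [hval, ← hlin s (hS.adm σ hσ s hs) (inC_mem hs)]
        linarith [hadm s (hS.adm σ hσ s hs)]
      · have h1 : ∑ k, ((y k : ℚ) - ∑ i, (g b i : ℚ) * u σ i k) * v k = 0 := by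
          rw [hval, ← hlin v hadm' hvC]
          linarith [hadm v hadm']
        have h2 : ∑ k, ((y k : ℚ) - ∑ i, (g b i : ℚ) * u σ i k) * vσ σ k =
            r' * ∑ k, ((y k : ℚ) - ∑ i, (g b i : ℚ) * u σ i k) * v k := by
          rw [hXr, Finset.mul_sum]
          refine Finset.sum_congr rfl fun k _ => ?_
          simp only [Pi.smul_apply, smul_eq_mul]
          push_cast
          ring
        rw [h2, h1, mul_zero]
    have hyk : ∀ k, (y k : ℚ) = ∑ i, (g b i : ℚ) * u σ i k := by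
      intro k
      have h1 := congrFun hyu k
      simp only [Pi.zero_apply] at h1
      linarith
    refine ⟨fun s => ?_, fun w hw => ?_⟩
    · rw [← hyk]
      have h8 := hdeg s
      have h9 : (((dF s : ℤ) * y s : ℤ) : ℚ) ≤ ((bt β (g b) s : ℤ) : ℚ) := by exact_mod_cast h8
      unfold bt at h9
      push_cast at h9
      exact h9
    · have h8 := hadm w hw
      refine h8.trans (le_of_eq ?_)
      push_cast
      refine Finset.sum_congr rfl fun k _ => ?_
      rw [← hyk]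
      ring
  -- the real combination
  have hcomb : ∀ A : Fin p → ℚ, ∑ i, lam i * (A i : ℝ) =
      ∑ b, t b * ((∑ i, (g b i : ℚ) * A i : ℚ) : ℝ) := by
    intro A
    have h4 : ∀ i, lam i * (A i : ℝ) = ∑ b, t b * ((g b i : ℝ) * A i) := by
      intro i
      rw [hlt i, Finset.sum_mul]
      exact Finset.sum_congr rfl fun b _ => by ring
    rw [Finset.sum_congr rfl fun i _ => h4 i, Finset.sum_comm]
    refine Finset.sum_congr rfl fun b _ => ?_
    rw [← Finset.mul_sum]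
    push_cast
    rfl
  refine ⟨fun s => ?_, fun w hw => ?_⟩
  · have h5 : ∑ i, lam i * (β i s : ℝ) = ∑ b, t b * ((∑ i, (g b i : ℚ) * β i s : ℚ) : ℝ) := by
      have := hcomb fun i => (β i s : ℚ)
      push_cast at this ⊢
      exact this
    rw [hcomb fun i => u σ i s, h5, Finset.mul_sum]
    refine Finset.sum_le_sum fun b _ => ?_
    by_cases hb : t b = 0
    · rw [hb]
      simp
    · have h6 := (key b hb).1 s
      have h7 : (((dF s : ℚ) * ∑ i, (g b i : ℚ) * u σ i s : ℚ) : ℝ) ≤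
          ((∑ i, (g b i : ℚ) * β i s : ℚ) : ℝ) := by exact_mod_cast h6
      have h8 := mul_le_mul_of_nonneg_left h7 (ht b)
      refine le_trans (le_of_eq ?_) h8
      push_cast
      ring
  · rw [hcomb fun i => - c i w]
    have h5 : ∑ k, (∑ i, lam i * (u σ i k : ℝ)) * (w k : ℝ) =
        ∑ b, t b * ((∑ k, (∑ i, (g b i : ℚ) * u σ i k) * w k : ℚ) : ℝ) := by
      have h6 : ∀ k, (∑ i, lam i * (u σ i k : ℝ)) * (w k : ℝ) =
          ∑ b, t b * (((∑ i, (g b i : ℚ) * u σ i k) * w k : ℚ) : ℝ) := by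
        intro k
        rw [hcomb fun i => u σ i k, Finset.sum_mul]
        refine Finset.sum_congr rfl fun b _ => ?_
        push_cast
        ring
      rw [Finset.sum_congr rfl fun k _ => h6 k, Finset.sum_comm]
      refine Finset.sum_congr rfl fun b _ => ?_
      rw [← Finset.mul_sum, Rat.cast_sum]
    rw [h5]
    refine Finset.sum_le_sum fun b _ => ?_
    by_cases hb : t b = 0
    · rw [hb, zero_mul, zero_mul]
    · refine mul_le_mul_of_nonneg_left ?_ (ht b)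
      exact_mod_cast (key b hb).2 w hw

end Pool.Agent.Q57.FT
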