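import Pool.Agent.Q57.FT.Fan

/-!
The cone of the nef real combinations of toroidal divisors on a toroidal model.
-/

set_option autoImplicit false
set_option linter.overlappingInstances false
set_option linter.unusedSectionVars false
set_option maxHeartbeats 1000000

open FF MvPolynomial Pool.Agent.W603.LV Pool.Agent.W602.GT Pool.Agent.W602.Cov
open Pool.Agent.TH756.PR Pool.Agent.TH122.AB Pool.Agent.TH756.PN
open Pool.Agent.Y169.CH Pool.Agent.Y169.CH.Cvr Pool.Agent.Q57.TP Pool.Agent.Q57.TQ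
open Pool.Agent.Q57.GM Pool.Agent.Q57.GH Pool.Agent.Q57.FG Pool.Agent.Q57.GG Pool.Agent.Q57.GE

namespace Pool.Agent.Q57.FT

/-- the real points of a rational cone are combinations of finitely many integral points -/
theorem real_cone {q : ℕ} {ι : Type} [Fintype ι] [DecidableEq ι] (A : ι → Fin q → ℤ) :
    ∃ (N : ℕ) (h : Fin N → Fin q → ℕ), (∀ b s, 0 ≤ ∑ i, A s i * (h b i : ℤ)) ∧
      ∀ lam : Fin q → ℝ, (∀ i, 0 ≤ lam i) → (∀ s, 0 ≤ ∑ i, (A s i : ℝ) * lam i) →
        ∃ t : Fin N → ℝ, (∀ b, 0 ≤ t b) ∧ ∀ i, lam i = ∑ b, t b * h b i := by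
  classical
  let L : (Fin q → ℤ) →+ ((ι ⊕ Fin q) → ℤ) :=
    AddMonoidHom.mk' (fun γ => Sum.elim (fun s => ∑ i, A s i * γ i) fun i => γ i) (by
      intro x y
      funext s
      rcases s with s | i
      · simp only [Sum.elim_inl, Pi.add_apply, mul_add, Finset.sum_add_distrib]
      · simp only [Sum.elim_inr, Pi.add_apply])
  have hLl : ∀ γ s, L γ (Sum.inl s) = ∑ i, A s i * γ i := fun _ _ => rfl
  have hLr : ∀ γ i, L γ (Sum.inr i) = γ i := fun _ _ => rfl
  have hL : Function.Injective L := by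
    rw [injective_iff_map_eq_zero]
    intro γ hγ
    funext i
    exact congrFun hγ (Sum.inr i)
  obtain ⟨G, hG1, hG2⟩ := gordan L hL
  let eG : {g // g ∈ G} ≃ Fin (Fintype.card {g // g ∈ G}) := Fintype.equivFin _
  obtain ⟨h, hh⟩ : ∃ h : Fin (Fintype.card {g // g ∈ G}) → Fin q → ℕ,
    h = fun b i => ((eG.symm b).1 i).toNat := ⟨_, rfl⟩
  have hhz : ∀ b i, ((h b i : ℕ) : ℤ) = (eG.symm b).1 i := by
    intro b i
    rw [hh]
    have h1 := (hG1 _ (eG.symm b).2).2 (Sum.inr i)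
    rw [hLr] at h1
    exact Int.toNat_of_nonneg h1
  refine ⟨_, h, fun b s => ?_, fun lam hlam hA => ?_⟩
  · simp only [hhz]
    exact (hG1 _ (eG.symm b).2).2 (Sum.inl s)
  obtain ⟨cc, hcc⟩ : ∃ cc : (ι ⊕ Fin q) → ℤ, cc = Sum.elim (fun s => ∑ i, |A s i|) fun _ => 0 :=
    ⟨_, rfl⟩
  obtain ⟨CC, hCC⟩ := approx L hL cc (fun i : Fin q => AddMonoidHom.mk' (fun γ : Fin q → ℤ => γ i)
    (fun _ _ => rfl))
  refine cone_closed (fun b i => ((h b i : ℕ) : ℝ)) (fun b i => by positivity) (fun b => ?_) lam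
    fun ε hε => ?_
  · have h1 : ∃ i, h b i ≠ 0 := by
      by_contra hcon
      push Not at hcon
      apply (hG1 _ (eG.symm b).2).1
      funext i
      rw [← hhz, hcon]
      rfl
    obtain ⟨i, hi⟩ := h1
    have h2 : (1 : ℝ) ≤ h b i := by
      have : 1 ≤ h b i := Nat.one_le_iff_ne_zero.2 hi
      exact_mod_cast this
    exact h2.trans (Finset.single_le_sum (f := fun i => ((h b i : ℕ) : ℝ))
      (fun i _ => by positivity) (Finset.mem_univ i))
  obtain ⟨M, hM⟩ := exists_nat_gt (((CC : ℝ) + 1) / ε)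
  rw [div_lt_iff₀ hε] at hM
  have hM0 : (0 : ℝ) < M := by
    by_contra hcon
    push Not at hcon
    have h1 : (M : ℝ) * ε ≤ 0 := mul_nonpos_of_nonpos_of_nonneg hcon hε.le
    have h2 : (0 : ℝ) ≤ CC := by positivity
    linarith
  obtain ⟨γ, hγ⟩ : ∃ γ : Fin q → ℤ, γ = fun i => ⌊(M : ℝ) * lam i⌋ := ⟨_, rfl⟩
  have hγ1 : ∀ i, |(γ i : ℝ) - M * lam i| ≤ 1 := by
    intro i
    rw [hγ, abs_le]
    have h1 := Int.floor_le ((M : ℝ) * lam i)
    have h2 := Int.lt_floor_add_one ((M : ℝ) * lam i)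
    dsimp only
    constructor <;> linarith
  have hcons : ∀ s, - (cc s * ((1 : ℕ) : ℤ)) ≤ L γ s := by
    intro s
    rcases s with s | i
    · rw [hcc, Sum.elim_inl, hLl, Nat.cast_one, mul_one]
      have h1 : ((- ∑ i, |A s i| : ℤ) : ℝ) ≤ ((∑ i, A s i * γ i : ℤ) : ℝ) := by
        have h2 : ∀ i, (A s i : ℝ) * (M * lam i) - |(A s i : ℝ)| ≤ (A s i : ℝ) * γ i := by
          intro i
          have h3 : |(A s i : ℝ) * (γ i - M * lam i)| ≤ |(A s i : ℝ)| := by
            rw [abs_mul]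
            have := hγ1 i
            have h4 := abs_nonneg (A s i : ℝ)
            nlinarith
          have h4 := (abs_le.1 h3).1
          linarith
        have h3 := Finset.sum_le_sum fun i (_ : i ∈ Finset.univ) => h2 i
        rw [Finset.sum_sub_distrib] at h3
        have h4 : ∑ i, (A s i : ℝ) * (M * lam i) = M * ∑ i, (A s i : ℝ) * lam i := by
          rw [Finset.mul_sum]
          exact Finset.sum_congr rfl fun i _ => by ring
        rw [h4] at h3
        have h5 := mul_nonneg hM0.le (hA s)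
        push_cast
        linarith
      exact_mod_cast h1
    · rw [hcc, Sum.elim_inr, zero_mul, neg_zero, hLr, hγ]
      exact Int.floor_nonneg.2 (mul_nonneg hM0.le (hlam i))
  obtain ⟨γ0, hγ0, hγ0'⟩ := hCC γ 1 hcons
  obtain ⟨e, he⟩ := closure_comb G (hG2 γ0 hγ0)
  refine ⟨fun b => (e (eG.symm b).1 : ℝ) / M, fun b => by positivity, fun i => ?_⟩
  have h1 : ∑ b, (e (eG.symm b).1 : ℝ) / M * h b i = (γ0 i : ℝ) / M := by
    have h2 : ((∑ b, (e (eG.symm b).1 : ℤ) * (h b i : ℤ) : ℤ)) = γ0 i := by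
      simp only [hhz]
      rw [Equiv.sum_comp eG.symm fun g : {g // g ∈ G} => ((e g.1 : ℕ) : ℤ) * g.1 i]
      conv_rhs => rw [he]
      rw [Finset.sum_apply, ← Finset.sum_coe_sort G]
      exact Finset.sum_congr rfl fun g _ => by simp
    have h3 : ((∑ b, (e (eG.symm b).1 : ℤ) * (h b i : ℤ) : ℤ) : ℝ) = (γ0 i : ℝ) := by
      exact_mod_cast h2
    rw [← h3]
    push_cast
    rw [Finset.sum_div]
    exact Finset.sum_congr rfl fun b _ => by ring
  rw [h1]
  have h2 := hγ0' i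
  have h3 : |(γ i : ℝ) - γ0 i| ≤ CC := by
    have h4 : ((|γ i - γ0 i| : ℤ) : ℝ) ≤ ((CC * ((1 : ℕ) : ℤ) : ℤ) : ℝ) := by exact_mod_cast h2
    push_cast at h4
    linarith
  have h4 : (γ0 i : ℝ) / M - lam i = ((γ0 i - γ i) + (γ i - M * lam i)) / M := by
    rw [eq_div_iff hM0.ne']
    field_simp
    ring
  rw [h4, abs_div, abs_of_pos hM0, div_le_iff₀ hM0]
  refine (abs_add_le _ _).trans ?_
  rw [abs_sub_comm (γ0 i : ℝ)]
  have h5 := hγ1 i
  have h6 : ε * M = M * ε := mul_comm _ _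
  linarith

section defs

variable {p : ℕ} {K : Type} [Field K] [Algebra ℂ K]

/-- `f` is a section of `∑ i, μ i • D i + j • A`, where `δ i P` is the coefficient of `D i` at `P`
and `A` is generated by the elements of `S` -/
def ZSecA (N : ℕ) (δ : Fin p → Place ℂ K → ℚ) (S : Finset K) (μ : Fin p → ℤ) (j : ℕ) (f : K) :
    Prop :=
  ∀ P : Place ℂ K, Divisorial N P → f = 0 ∨ ∃ s ∈ S, s ≠ 0 ∧
    (j : ℚ) * P.ord s - ∑ i, (μ i : ℚ) * δ i P ≤ P.ord f

/-- `f` is a section of `∑ i, μ i • D i` -/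
def ZSec (N : ℕ) (δ : Fin p → Place ℂ K → ℚ) (μ : Fin p → ℤ) (f : K) : Prop :=
  ∀ P : Place ℂ K, Divisorial N P → f = 0 ∨ - ∑ i, (μ i : ℚ) * δ i P ≤ P.ord f

/-- `∑ i, μ i • D i` has no base points -/
def Bpf (N : ℕ) (δ : Fin p → Place ℂ K → ℚ) (μ : Fin p → ℤ) : Prop :=
  ∀ P : Place ℂ K, Divisorial N P → ∃ f : K, f ≠ 0 ∧ ZSec N δ μ f ∧
    (P.ord f : ℚ) ≤ - ∑ i, (μ i : ℚ) * δ i P

/-- the real combination `∑ i, lam i • D i` is nef -/
def NefZ (N : ℕ) (δ : Fin p → Place ℂ K → ℚ) (lam : Fin p → ℝ) : Prop :=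
  ∃ S : Finset K, (∃ s ∈ S, s ≠ 0) ∧ ∀ M : ℕ, 1 ≤ M → ∃ j : ℕ, 1 ≤ j ∧
    ∀ P : Place ℂ K, Divisorial N P → ∃ μ : Fin p → ℤ, (∀ i, |(μ i : ℝ) - j * M * lam i| ≤ j) ∧
      ∃ f : K, f ≠ 0 ∧ ZSecA N δ S μ j f ∧ ∀ s ∈ S, s ≠ 0 →
        (P.ord f : ℚ) ≤ j * P.ord s - ∑ i, (μ i : ℚ) * δ i P

theorem zsec_mul {N : ℕ} {δ : Fin p → Place ℂ K → ℚ} {μ μ' : Fin p → ℤ} {f f' : K}
    (h : ZSec N δ μ f) (h' : ZSec N δ μ' f') : ZSec N δ (μ + μ') (f * f') := by
  intro P hP
  by_cases h0 : f = 0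
  · left
    rw [h0, zero_mul]
  by_cases h0' : f' = 0
  · left
    rw [h0', mul_zero]
  right
  have h1 := (h P hP).resolve_left h0
  have h2 := (h' P hP).resolve_left h0'
  rw [P.ord_mul h0 h0']
  have h3 : ∑ i, (((μ + μ') i : ℤ) : ℚ) * δ i P = ∑ i, (μ i : ℚ) * δ i P +
      ∑ i, (μ' i : ℚ) * δ i P := by
    rw [← Finset.sum_add_distrib]
    refine Finset.sum_congr rfl fun i _ => ?_
    rw [Pi.add_apply]
    push_cast
    ring
  rw [h3]
  push_cast
  linarith

theorem zsec_one {N : ℕ} {δ : Fin p → Place ℂ K → ℚ} : ZSec N δ 0 (1 : K) := by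
  intro P _
  right
  simp [P.ord_one]

theorem zsec_pow {N : ℕ} {δ : Fin p → Place ℂ K → ℚ} {μ : Fin p → ℤ} {f : K}
    (h : ZSec N δ μ f) (e : ℕ) : ZSec N δ (e • μ) (f ^ e) := by
  induction e with
  | zero =>
    rw [zero_smul, pow_zero]
    exact zsec_one
  | succ e ih =>
    rw [succ_nsmul, pow_succ]
    exact zsec_mul ih h

theorem zsec_prod {N N0 : ℕ} {δ : Fin p → Place ℂ K → ℚ} {g : Fin N0 → Fin p → ℤ}
    {f : Fin N0 → K} (h : ∀ b, ZSec N δ (g b) (f b)) (e : Fin N0 → ℕ) :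
    ZSec N δ (∑ b, e b • g b) (∏ b, f b ^ e b) := by
  classical
  have key : ∀ s : Finset (Fin N0), ZSec N δ (∑ b ∈ s, e b • g b) (∏ b ∈ s, f b ^ e b) := by
    intro s
    induction s using Finset.induction_on with
    | empty => simpa using zsec_one (N := N) (δ := δ)
    | insert b s hb ih =>
      rw [Finset.sum_insert hb, Finset.prod_insert hb]
      exact zsec_mul (zsec_pow (h b) (e b)) ih
  exact key Finset.univ

/-- **Combinations of base point free divisors are nef.** -/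
theorem nefZ_of {N N0 : ℕ} {δ : Fin p → Place ℂ K → ℚ} {h : Fin N0 → Fin p → ℤ}
    (hb : ∀ b, Bpf N δ (h b)) {lam : Fin p → ℝ} {t : Fin N0 → ℝ} (ht : ∀ b, 0 ≤ t b)
    (hlt : ∀ i, lam i = ∑ b, t b * h b i) : NefZ N δ lam := by
  classical
  obtain ⟨B, hB⟩ : ∃ B : ℕ, B = ∑ i, ∑ b, (h b i).natAbs := ⟨_, rfl⟩
  have hBi : ∀ i, ∑ b, (h b i).natAbs ≤ B := by
    intro i
    rw [hB]
    exact Finset.single_le_sum (f := fun i => ∑ b, (h b i).natAbs) (fun _ _ => Nat.zero_le _)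
      (Finset.mem_univ i)
  refine ⟨{1}, ⟨1, by simp, one_ne_zero⟩, fun M hM => ⟨B + 1, by omega, fun P hP => ?_⟩⟩
  choose f hf0 hfs hfP using fun b => hb b P hP
  obtain ⟨e, he⟩ : ∃ e : Fin N0 → ℕ, e = fun b => ⌊((B + 1 : ℕ) : ℝ) * M * t b⌋₊ := ⟨_, rfl⟩
  have hsec := zsec_prod hfs e
  have hval : ∀ (i : Fin p), ((∑ b, e b • h b) i : ℤ) = ∑ b, (e b : ℤ) * h b i := by
    intro i
    rw [Finset.sum_apply]
    exact Finset.sum_congr rfl fun b _ => by rw [Pi.smul_apply, nsmul_eq_mul]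
  refine ⟨∑ b, e b • h b, fun i => ?_, ∏ b, f b ^ e b,
    Finset.prod_ne_zero_iff.2 fun b _ => pow_ne_zero _ (hf0 b), fun P hP => ?_, fun s hs _ => ?_⟩
  · rw [hval, hlt i, Finset.mul_sum]
    push_cast
    rw [← Finset.sum_sub_distrib]
    refine (Finset.abs_sum_le_sum_abs _ _).trans ?_
    have h2 : ∀ b, |(e b : ℝ) * h b i - ((B : ℝ) + 1) * M * (t b * h b i)| ≤
        ((h b i).natAbs : ℝ) := by
      intro b
      have h3 : (0 : ℝ) ≤ ((B + 1 : ℕ) : ℝ) * M * t b := by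
        have := ht b
        positivity
      have h4 := Nat.floor_le h3
      have h5 := Nat.lt_floor_add_one (((B + 1 : ℕ) : ℝ) * M * t b)
      push_cast at h3 h4 h5
      have h6 : (e b : ℝ) * h b i - ((B : ℝ) + 1) * M * (t b * h b i) =
          ((e b : ℝ) - ((B : ℝ) + 1) * M * t b) * h b i := by
        ring
      have h7 : |(e b : ℝ) - ((B : ℝ) + 1) * M * t b| ≤ 1 := by
        rw [he, abs_le]
        push_cast
        constructor <;> linarith
      have h8 : (((h b i).natAbs : ℕ) : ℝ) = |(h b i : ℝ)| := by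
        rw [← Int.cast_abs, Int.abs_eq_natAbs]
        rfl
      rw [h6, abs_mul, h8]
      have h9 := abs_nonneg (h b i : ℝ)
      nlinarith
    refine (Finset.sum_le_sum fun b _ => h2 b).trans ?_
    have h3 : ((∑ b, (h b i).natAbs : ℕ) : ℝ) ≤ ((B + 1 : ℕ) : ℝ) := by
      exact_mod_cast (hBi i).trans (Nat.le_succ B)
    push_cast at h3 ⊢
    exact h3
  · refine (hsec P hP).imp id fun hle => ⟨1, by simp, one_ne_zero, ?_⟩
    rw [P.ord_one]
    push_cast at hle ⊢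
    linarith
  · rw [Finset.mem_singleton] at hs
    rw [hs, P.ord_one]
    rw [ord_prod' P Finset.univ _ fun b _ => pow_ne_zero _ (hf0 b)]
    have h1 : ∑ i, (((∑ b, e b • h b) i : ℤ) : ℚ) * δ i P =
        ∑ b, (e b : ℚ) * ∑ i, (h b i : ℚ) * δ i P := by
      have h2 : ∀ i, (((∑ b, e b • h b) i : ℤ) : ℚ) * δ i P =
          ∑ b, (e b : ℚ) * ((h b i : ℚ) * δ i P) := by
        intro i
        rw [hval]
        push_cast
        rw [Finset.sum_mul]
        exact Finset.sum_congr rfl fun b _ => by ring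
      rw [Finset.sum_congr rfl fun i _ => h2 i, Finset.sum_comm]
      exact Finset.sum_congr rfl fun b _ => (Finset.mul_sum _ _ _).symm
    rw [h1]
    push_cast
    have h3 : ∑ b, ((P.ord (f b ^ e b) : ℤ) : ℚ) ≤ - ∑ b, (e b : ℚ) * ∑ i, (h b i : ℚ) * δ i P := by
      rw [← Finset.sum_neg_distrib]
      refine Finset.sum_le_sum fun b _ => ?_
      rw [P.ord_pow]
      push_cast
      have h4 := mul_le_mul_of_nonneg_left (hfP b) (by positivity : (0 : ℚ) ≤ e b)
      linarith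
    linarith

/-- the divisors and their negatives -/
def dbl {A : Type} [Neg A] (f : Fin p → A) : Fin (p + p) → A := Fin.append f fun i => - f i

/-- the positive and the negative part -/
noncomputable def posneg (lam : Fin p → ℝ) : Fin (p + p) → ℝ :=
  Fin.append (fun i => max (lam i) 0) fun i => max (- lam i) 0

theorem posneg_nonneg (lam : Fin p → ℝ) (i : Fin (p + p)) : 0 ≤ posneg lam i := by
  refine Fin.addCases (fun i => ?_) (fun i => ?_) i
  · rw [posneg, Fin.append_left]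
    exact le_max_right _ _
  · rw [posneg, Fin.append_right]
    exact le_max_right _ _

theorem sum_posneg (lam : Fin p → ℝ) (f : Fin (p + p) → ℝ)
    (g : Fin p → ℝ) (h1 : ∀ i, f (Fin.castAdd p i) = g i) (h2 : ∀ i, f (Fin.natAdd p i) = - g i) :
    ∑ i, posneg lam i * f i = ∑ i, lam i * g i := by
  rw [Fin.sum_univ_add, ← Finset.sum_add_distrib]
  refine Finset.sum_congr rfl fun i _ => ?_
  rw [posneg, Fin.append_left, Fin.append_right, h1, h2]
  rcases le_total (lam i) 0 with h | h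
  · rw [max_eq_right h, max_eq_left (by linarith : (0 : ℝ) ≤ - lam i)]
    ring
  · rw [max_eq_left h, max_eq_right (by linarith : - lam i ≤ (0 : ℝ))]
    ring

/-- nef combinations with arbitrary signs -/
theorem nefZ_nefF {N : ℕ} {δ : Fin p → Place ℂ K → ℚ} {lam : Fin p → ℝ} (h : NefZ N δ lam) :
    NefF N (Fin.append δ fun i P => - δ i P) (posneg lam) := by
  classical
  obtain ⟨S, hS, hnef⟩ := h
  refine ⟨S, hS, fun M hM => ?_⟩
  obtain ⟨j, hj, hjP⟩ := hnef M hM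
  refine ⟨j, hj, fun P hP => ?_⟩
  obtain ⟨μ, hμ, f, hf0, hf, hle⟩ := hjP P hP
  obtain ⟨μ2, hμ2⟩ : ∃ μ2 : Fin (p + p) →₀ ℕ, μ2 = Finsupp.equivFunOnFinite.symm
    (Fin.append (fun i => (μ i).toNat) fun i => (- μ i).toNat) := ⟨_, rfl⟩
  have hl : ∀ i, μ2 (Fin.castAdd p i) = (μ i).toNat := by
    intro i
    rw [hμ2, Finsupp.equivFunOnFinite_symm_apply_apply, Fin.append_left]
  have hr : ∀ i, μ2 (Fin.natAdd p i) = (- μ i).toNat := by
    intro i
    rw [hμ2, Finsupp.equivFunOnFinite_symm_apply_apply, Fin.append_right]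
  have hsum : ∀ P, ∑ i, (μ2 i : ℚ) * (Fin.append δ (fun i P => - δ i P) i P) =
      ∑ i, (μ i : ℚ) * δ i P := by
    intro P
    rw [Fin.sum_univ_add, ← Finset.sum_add_distrib]
    refine Finset.sum_congr rfl fun i _ => ?_
    rw [Fin.append_left, Fin.append_right, hl, hr]
    have h1 : (((μ i).toNat : ℤ)) - ((- μ i).toNat : ℤ) = μ i := Int.toNat_sub_toNat_neg _
    have h2 : ((μ i).toNat : ℚ) - ((- μ i).toNat : ℚ) = μ i := by exact_mod_cast h1
    rw [← h2]
    ring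
  refine ⟨μ2, fun i => ?_, f, fun P hP => ?_, hf0, fun s hs hs0 => ?_⟩
  · have key : ∀ (m : ℤ) (l : ℝ), |(m : ℝ) - j * M * l| ≤ j →
        |((m.toNat : ℕ) : ℝ) - j * M * max l 0| ≤ j := by
      intro m l h
      have h1 : ((m.toNat : ℕ) : ℝ) = max (m : ℝ) 0 := by
        have h2 : ((m.toNat : ℕ) : ℤ) = max m 0 := Int.toNat_eq_max m
        have h3 : (((m.toNat : ℕ) : ℤ) : ℝ) = ((max m 0 : ℤ) : ℝ) := by rw [h2]
        rw [Int.cast_max] at h3
        exact_mod_cast h3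
      have h2 : (j : ℝ) * M * max l 0 = max (j * M * l) 0 := by
        rw [mul_max_of_nonneg _ _ (by positivity : (0 : ℝ) ≤ j * M), mul_zero]
      rw [h1, h2]
      exact (abs_max_sub_max_le_abs _ _ _).trans h
    refine Fin.addCases (fun i => ?_) (fun i => ?_) i
    · rw [hl, posneg, Fin.append_left]
      exact key _ _ (hμ i)
    · rw [hr, posneg, Fin.append_right]
      refine key _ _ ?_
      have h1 := hμ i
      push_cast
      rw [mul_neg, ← abs_neg]
      refine le_trans (le_of_eq ?_) h1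
      congr 1
      ring
  · rw [hsum]
    exact hf P hP
  · rw [hsum]
    exact hle s hs hs0

end defs

end Pool.Agent.Q57.FT
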