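import Pool.Agent.Q57.FT.Cone

/-!
Base point freeness of Cartier divisors which satisfy the inequalities, and the nef cone.
-/

set_option autoImplicit false
set_option linter.overlappingInstances false
set_option linter.unusedSectionVars false
set_option maxHeartbeats 1000000

open FF MvPolynomial Pool.Agent.W603.LV Pool.Agent.W602.GT Pool.Agent.W602.Cov
open Pool.Agent.TH756.PR Pool.Agent.TH122.AB Pool.Agent.TH756.PN
open Pool.Agent.Y169.CH Pool.Agent.Y169.CH.Cvr Pool.Agent.Q57.TP Pool.Agent.Q57.TQ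
open Pool.Agent.Q57.GM Pool.Agent.Q57.GH Pool.Agent.Q57.FG Pool.Agent.Q57.GG Pool.Agent.Q57.GE

namespace Pool.Agent.Q57.FT

section cone

variable {r R p : ℕ} {M : Fin R → ℕ} {a : Fin R → Fin r → ℕ} {S : Finset (Finset (Fin r → ℕ))}
  {c : Fin p → (Fin r → ℕ) → ℚ} {u : Finset (Fin r → ℕ) → Fin p → Fin r → ℚ}

/-- the coefficients as combinations of the coefficients of the generators of a cone -/
theorem Fan.comb (h : Fan M a S) (hu : LinC M a S c u) {σ : Finset (Fin r → ℕ)} (hσ : σ ∈ S)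
    {v : Fin r → ℕ} (hv : Adm M a v) (hvσ : InC σ v) :
    ∃ w : (Fin r → ℕ) → ℚ, (∀ s, 0 ≤ w s) ∧ (∀ k, (v k : ℚ) = ∑ s ∈ σ, w s * s k) ∧
      ∀ i, - c i v = ∑ s ∈ σ, w s * (- c i s) := by
  obtain ⟨w, hw, hwv⟩ := hvσ
  refine ⟨w, hw, hwv, fun i => ?_⟩
  rw [hu σ hσ i v hv ⟨w, hw, hwv⟩]
  have h1 : ∀ s ∈ σ, w s * (- c i s) = ∑ k, u σ i k * (w s * s k) := by
    intro s hs
    rw [hu σ hσ i s (h.adm σ hσ s hs) (inC_mem hs), Finset.mul_sum]
    exact Finset.sum_congr rfl fun k _ => by ring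
  rw [Finset.sum_congr rfl h1, Finset.sum_comm]
  refine Finset.sum_congr rfl fun k _ => ?_
  rw [hwv k, Finset.mul_sum]

/-- the inequalities for the generators imply the inequalities for all vectors -/
theorem Fan.ineq_all (h : Fan M a S) (hu : LinC M a S c u) {μ : Fin p → ℚ} {y : Fin r → ℚ}
    (hy : ∀ s ∈ S.biUnion id, ∑ i, μ i * (- c i s) ≤ ∑ k, y k * s k) (v : Fin r → ℕ)
    (hv : Adm M a v) : ∑ i, μ i * (- c i v) ≤ ∑ k, y k * v k := by
  classical
  obtain ⟨σ, hσ, hvσ⟩ := h.cover v hv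
  obtain ⟨w, hw, hwv, hwc⟩ := h.comb hu hσ hv hvσ
  have h1 : ∑ i, μ i * (- c i v) = ∑ s ∈ σ, w s * ∑ i, μ i * (- c i s) := by
    have h2 : ∀ i, μ i * (- c i v) = ∑ s ∈ σ, w s * (μ i * (- c i s)) := by
      intro i
      rw [hwc i, Finset.mul_sum]
      exact Finset.sum_congr rfl fun s _ => by ring
    rw [Finset.sum_congr rfl fun i _ => h2 i, Finset.sum_comm]
    exact Finset.sum_congr rfl fun s _ => (Finset.mul_sum _ _ _).symm
  have h2 : ∑ k, y k * (v k : ℚ) = ∑ s ∈ σ, w s * ∑ k, y k * s k := by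
    have h3 : ∀ k, y k * (v k : ℚ) = ∑ s ∈ σ, w s * (y k * s k) := by
      intro k
      rw [hwv k, Finset.mul_sum]
      exact Finset.sum_congr rfl fun s _ => by ring
    rw [Finset.sum_congr rfl fun k _ => h3 k, Finset.sum_comm]
    exact Finset.sum_congr rfl fun s _ => (Finset.mul_sum _ _ _).symm
  rw [h1, h2]
  exact Finset.sum_le_sum fun s hs => mul_le_mul_of_nonneg_left
    (hy s (Finset.mem_biUnion.2 ⟨σ, hσ, hs⟩)) (hw s)

end cone

variable {r R N' p : ℕ} {n : Fin r → ℕ} {K : Type} [Field K] [Algebra ℂ K]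
  {e : ((i : Fin r) × Fin (n i)) ≃ Fin (N' + 1)} {Φ : Blk ℂ (N' + 1) r} {C : Cvr Φ K R}
  {dF : Fin r → ℕ} {x : ∀ i, Fin (n i + 1) → K} {F : ∀ i, MvPolynomial (Fin (n i + 1)) ℂ}
  {c : Fin p → (Fin r → ℕ) → ℚ} {β : Fin p → Fin r → ℤ} {δ : Fin p → Place ℂ K → ℚ}
  {S : Finset (Finset (Fin r → ℕ))} {u : Finset (Fin r → ℕ) → Fin p → Fin r → ℚ}

/-- the section of a point of the dual lattice -/
noncomputable def fC (C : Cvr Φ K R) (dF : Fin r → ℕ) (x : ∀ i, Fin (n i + 1) → K)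
    (F : ∀ i, MvPolynomial (Fin (n i + 1)) ℂ) (b : Fin r → ℤ) (y : Fin r → ℤ) (k : Fin R → ℤ)
    (l : ∀ i, Fin (n i + 1)) : K :=
  fL C dF x F 0 y k l * ∏ i, x i (l i) ^ b i

theorem fC_ne (H : Mon e C dF x F) (b : Fin r → ℤ) (y : Fin r → ℤ) (k : Fin R → ℤ)
    (l : ∀ i, Fin (n i + 1)) : fC C dF x F b y k l ≠ 0 :=
  mul_ne_zero (fL_ne H _ _ _ _) (Finset.prod_ne_zero_iff.2 fun i _ => zpow_ne_zero _ (H.hx i _))

theorem ord_fC (H : Mon e C dF x F) {P : Place ℂ K} {α : Fin r → ℤ}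
    {l' : ∀ i, Fin (n i + 1)} {v : Fin r → ℕ} (h : DatH P dF x F α l' v) (b : Fin r → ℤ)
    (y : Fin r → ℤ) (k : Fin R → ℤ) (l : ∀ i, Fin (n i + 1)) :
    (P.ord (fC C dF x F b y k l) : ℚ) = ∑ i, (v i : ℚ) * uL C y k i + ∑ i, (b i : ℚ) * α i +
      ∑ i, ((b i : ℚ) - dF i * uL C y k i) * (P.ord (x i (l i)) - α i) := by
  unfold fC
  rw [P.ord_mul (fL_ne H _ _ _ _) (Finset.prod_ne_zero_iff.2 fun i _ =>
    zpow_ne_zero _ (H.hx i _)), ord_prod' P Finset.univ _ fun i _ => zpow_ne_zero _ (H.hx i _),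
    Int.cast_add, ord_fL H h]
  have h1 : ∀ i, (dg C dF n 0 y k i : ℚ) = - (dF i * uL C y k i) := by
    intro i
    rw [dg_eq H]
    push_cast
    ring
  simp only [h1]
  push_cast
  have h2 : ∀ i, ((P.ord (x i (l i) ^ b i) : ℤ) : ℚ) = b i * P.ord (x i (l i)) := by
    intro i
    rw [P.ord_zpow]
    push_cast
    rfl
  rw [Finset.sum_congr rfl fun i _ => h2 i]
  have h3 : ∑ i, ((b i : ℚ) - dF i * uL C y k i) * (P.ord (x i (l i)) - α i) =
      ∑ i, - (dF i * uL C y k i) * (P.ord (x i (l i)) - α i) +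
        ∑ i, (b i : ℚ) * P.ord (x i (l i)) - ∑ i, (b i : ℚ) * α i := by
    rw [← Finset.sum_add_distrib, ← Finset.sum_sub_distrib]
    exact Finset.sum_congr rfl fun i _ => by ring
  rw [h3]
  ring

/-- the total degrees, for integral coefficients -/
def btz (β : Fin p → Fin r → ℤ) (μ : Fin p → ℤ) (t : Fin r) : ℤ := ∑ i, μ i * β i t

/-- the value of the coefficients at a place, for integral coefficients -/
theorem sum_coefz (hcf : ∀ i, CoefT dF x F (c i) (β i) (δ i)) {P : Place ℂ K}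
    {α : Fin r → ℤ} {l : ∀ i, Fin (n i + 1)} {v : Fin r → ℕ} (hdat : DatH P dF x F α l v)
    (μ : Fin p → ℤ) :
    ∑ i, (μ i : ℚ) * δ i P = - ∑ i, (μ i : ℚ) * (- c i v) -
      ∑ t, (btz β μ t : ℚ) * α t := by
  have h4 : ∀ i, (μ i : ℚ) * δ i P = - ((μ i : ℚ) * (- c i v)) -
      ∑ t, ((μ i : ℚ) * β i t * α t) := by
    intro i
    rw [(hcf i).hδ P α l v hdat, mul_sub, Finset.mul_sum]
    congr 1
    · ring
    · exact Finset.sum_congr rfl fun t _ => by ring
  rw [Finset.sum_congr rfl fun i _ => h4 i, Finset.sum_sub_distrib, Finset.sum_neg_distrib,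
    Finset.sum_comm]
  congr 1
  refine Finset.sum_congr rfl fun t _ => ?_
  unfold btz
  push_cast
  rw [Finset.sum_mul]

/-- **Base point freeness** of the Cartier divisors which satisfy the inequalities. -/
theorem bpf_cartier (H : Mon e C dF x F) (hr : 1 ≤ r)
    (hcf : ∀ i, CoefT dF x F (c i) (β i) (δ i)) (hS : Fan C.M C.a S)
    (hu : LinC C.M C.a S c u) {μ : Fin p → ℤ}
    (hdeg : ∀ σ ∈ S, ∀ t, (dF t : ℚ) * ∑ i, (μ i : ℚ) * u σ i t ≤ ∑ i, (μ i : ℚ) * β i t)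
    (hvec : ∀ σ ∈ S, ∀ s ∈ S.biUnion id, ∑ i, (μ i : ℚ) * (- c i s) ≤
      ∑ k, (∑ i, (μ i : ℚ) * u σ i k) * s k)
    (hint : ∀ v, Adm C.M C.a v → ∃ z : ℤ, ∑ i, (μ i : ℚ) * c i v = z) :
    Bpf (N' + 1) δ μ := by
  classical
  intro P hP
  obtain ⟨α, l', v, hdat⟩ := H.exists_dat P
  obtain ⟨σ, hσ, hvσ⟩ : ∃ σ ∈ S, v ≠ 0 → InC σ v := by
    by_cases hv : v = 0
    · obtain ⟨σ, hσ, -⟩ := hS.cover _ (adm_single C.hM C.a ⟨0, hr⟩)
      exact ⟨σ, hσ, fun h => absurd hv h⟩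
    · obtain ⟨σ, hσ, h⟩ := hS.cover v (hdat.adm H hv)
      exact ⟨σ, hσ, fun _ => h⟩
  obtain ⟨uu', huu⟩ : ∃ uu' : Fin r → ℚ, uu' = fun k => ∑ i, (μ i : ℚ) * u σ i k := ⟨_, rfl⟩
  have huuk : ∀ k, ∑ i, (μ i : ℚ) * u σ i k = uu' k := fun k => by rw [huu]
  have hlin : ∀ τ ∈ S, ∀ w, Adm C.M C.a w → InC τ w → ∑ i, (μ i : ℚ) * (- c i w) =
      ∑ k, (∑ i, (μ i : ℚ) * u τ i k) * w k := by
    intro τ hτ w hw hwσ
    have h8 : ∀ i, (μ i : ℚ) * (- c i w) = ∑ k, (μ i : ℚ) * u τ i k * w k := by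
      intro i
      rw [hu τ hτ i w hw hwσ, Finset.mul_sum]
      exact Finset.sum_congr rfl fun k _ => by ring
    rw [Finset.sum_congr rfl fun i _ => h8 i, Finset.sum_comm]
    exact Finset.sum_congr rfl fun k _ => (Finset.sum_mul _ _ _).symm
  -- the fan on which the coefficients of the combination are linear
  have hfc : FanC C.M C.a S fun v => 1 - ∑ i, (μ i : ℚ) * (- c i v) :=
    ⟨hS.adm, hS.full, hS.cover, fun τ hτ => ⟨fun k => ∑ i, (μ i : ℚ) * u τ i k,
      fun w hw hwτ => by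
        rw [← hlin τ hτ w hw hwτ]
        ring⟩⟩
  obtain ⟨y, k, hyk⟩ := dual_lattice C.hM C.a uu' (fun w hw => by
    obtain ⟨z, hz⟩ := hfc.int hr (ρ := 1) (fun v hv => by
      obtain ⟨z, hz⟩ := hint v hv
      refine ⟨1 + z, ?_⟩
      rw [← huu] at *
      have h1 : ∑ i, (μ i : ℚ) * (- c i v) = - ∑ i, (μ i : ℚ) * c i v := by
        rw [← Finset.sum_neg_distrib]
        exact Finset.sum_congr rfl fun i _ => by ring
      rw [h1, hz]
      push_cast
      ring) hσ (u := uu') (fun v hv hvσ => by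
        rw [huu, ← hlin σ hσ v hv hvσ]
        ring) w hw
    refine ⟨z, ?_⟩
    rw [← hz]
    push_cast
    exact Finset.sum_congr rfl fun i _ => by ring)
  have huL : ∀ i, uL C y k i = uu' i := fun i => (hyk i).symm
  refine ⟨fC C dF x F (btz β μ) y k l', fC_ne H _ _ _ _, fun Q hQ => Or.inr ?_, ?_⟩
  · obtain ⟨α2, l2, v2, hdat2⟩ := H.exists_dat Q
    rw [ord_fC H hdat2, sum_coefz hcf hdat2]
    have h1 : (0 : ℚ) ≤ ∑ i, ((btz β μ i : ℚ) - dF i * uL C y k i) *
        (Q.ord (x i (l' i)) - α2 i) := by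
      refine Finset.sum_nonneg fun i _ => mul_nonneg ?_ ?_
      · rw [huL, ← huuk i]
        have h2 := hdeg σ hσ i
        unfold btz
        push_cast
        linarith
      · have h3 := hdat2.h1 i (l' i)
        have h4 : ((α2 i : ℤ) : ℚ) ≤ (Q.ord (x i (l' i)) : ℚ) := by exact_mod_cast h3
        linarith
    have h2 : ∑ i, (μ i : ℚ) * (- c i v2) ≤ ∑ i, (v2 i : ℚ) * uL C y k i := by
      by_cases hv : v2 = 0
      · rw [hv]
        refine le_of_eq ?_
        simp [(hcf _).h0]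
      · have h3 := hS.ineq_all hu (μ := fun i => (μ i : ℚ)) (y := uu') (fun s hs => by
          have h4 := hvec σ hσ s hs
          simp only [huuk] at h4
          exact h4) v2 (hdat2.adm H hv)
        refine h3.trans (le_of_eq ?_)
        exact Finset.sum_congr rfl fun i _ => by rw [huL]; ring
    linarith
  · rw [ord_fC H hdat, sum_coefz hcf hdat]
    have h1 : ∑ i, ((btz β μ i : ℚ) - dF i * uL C y k i) * (P.ord (x i (l' i)) - α i) = 0 := by
      refine Finset.sum_eq_zero fun i _ => ?_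
      rw [hdat.h2, sub_self, mul_zero]
    have h2 : ∑ i, (v i : ℚ) * uL C y k i = ∑ i, (μ i : ℚ) * (- c i v) := by
      by_cases hv : v = 0
      · rw [hv]
        simp [(hcf _).h0]
      · rw [hlin σ hσ v (hdat.adm H hv) (hvσ hv)]
        exact Finset.sum_congr rfl fun i _ => by rw [huL, huuk]; ring
    rw [h1, h2]
    linarith

/-- the inequalities -/
def Ineq (S : Finset (Finset (Fin r → ℕ))) (dF : Fin r → ℕ) (c : Fin p → (Fin r → ℕ) → ℚ)
    (β : Fin p → Fin r → ℤ) (u : Finset (Fin r → ℕ) → Fin p → Fin r → ℚ) (lam : Fin p → ℝ) :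
    Prop :=
  ∀ σ ∈ S, (∀ t, (dF t : ℝ) * ∑ i, lam i * u σ i t ≤ ∑ i, lam i * β i t) ∧
    ∀ τ ∈ S, ∀ s ∈ τ, - ∑ i, lam i * c i s ≤ ∑ k, (∑ i, lam i * u σ i k) * (s k : ℝ)

/-- nef combinations satisfy the inequalities -/
theorem ineq_of_nef (H : Mon e C dF x F) (hr : 1 ≤ r) (hdF : ∀ i, 1 ≤ dF i) (hΦ : Smo Φ)
    {μ' : Place ℂ K → Fin r → ℕ} (hvv : ∀ P v, MultH C P v → v = μ' P)
    (hcf : ∀ i, CoefT dF x F (c i) (β i) (δ i)) (hS : Fan C.M C.a S)
    (hu : LinC C.M C.a S c u) {lam : Fin p → ℝ} (hn : NefZ (N' + 1) δ lam) :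
    Ineq S dF c β u lam := by
  classical
  intro σ hσ
  have h1 := nef_ineq (c := Fin.append c fun i v => - c i v)
    (β := Fin.append β fun i t => - β i t) (δ := Fin.append δ fun i P => - δ i P)
    (S := S) (u := fun σ => Fin.append (u σ) fun i k => - u σ i k) H hr hdF hΦ hvv
    (fun i => by
      refine Fin.addCases (fun i => ?_) (fun i => ?_) i
      · simp only [Fin.append_left]
        exact hcf i
      · simp only [Fin.append_right]
        refine ⟨by rw [(hcf i).h0, neg_zero], fun P α l v hdat => ?_⟩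
        rw [(hcf i).hδ P α l v hdat]
        push_cast
        simp only [neg_mul, Finset.sum_neg_distrib]
        ring) hS (fun σ hσ i v hv hvσ => by
      refine Fin.addCases (fun i => ?_) (fun i => ?_) i
      · simp only [Fin.append_left]
        exact hu σ hσ i v hv hvσ
      · simp only [Fin.append_right]
        rw [hu σ hσ i v hv hvσ, ← Finset.sum_neg_distrib]
        exact Finset.sum_congr rfl fun k _ => by ring) (posneg lam) (nefZ_nefF hn) hσ
  obtain ⟨h2, h3⟩ := h1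
  have hk : ∀ k, ∑ i, posneg lam i * ((Fin.append (u σ) (fun i k => - u σ i k) i k : ℚ) : ℝ) =
      ∑ i, lam i * (u σ i k : ℝ) := by
    intro k
    refine sum_posneg lam _ (fun i => (u σ i k : ℝ)) (fun i => ?_) (fun i => ?_)
    · rw [Fin.append_left]
    · rw [Fin.append_right]
      push_cast
      rfl
  refine ⟨fun t => ?_, fun τ hτ s hs => ?_⟩
  · have h4 := h2 t
    rw [hk] at h4
    refine h4.trans (le_of_eq ?_)
    refine sum_posneg lam _ (fun i => (β i t : ℝ)) (fun i => ?_) (fun i => ?_)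
    · rw [Fin.append_left]
    · rw [Fin.append_right]
      push_cast
      rfl
  · have h4 := h3 s (hS.adm τ hτ s hs)
    simp only [hk] at h4
    refine le_trans (le_of_eq ?_) h4
    rw [← Finset.sum_neg_distrib]
    symm
    have h5 := sum_posneg lam (fun i => ((- (Fin.append c (fun i v => - c i v) i s) : ℚ) : ℝ))
      (fun i => - (c i s : ℝ)) (fun i => by rw [Fin.append_left]; push_cast; rfl) (fun i => by
        rw [Fin.append_right]
        push_cast
        rfl)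
    rw [h5]
    exact Finset.sum_congr rfl fun i _ => by ring

/-- **The nef cone.** -/
theorem cone_main (H : Mon e C dF x F) (hr : 1 ≤ r) (hdF : ∀ i, 1 ≤ dF i) (hΦ : Smo Φ)
    {μ' : Place ℂ K → Fin r → ℕ} (hvv : ∀ P v, MultH C P v → v = μ' P)
    (hcf : ∀ i, CoefT dF x F (c i) (β i) (δ i)) (hS : Fan C.M C.a S)
    (hu : LinC C.M C.a S c u) :
    ∃ (N0 : ℕ) (h : Fin N0 → Fin p → ℤ), (∀ b, Bpf (N' + 1) δ (h b)) ∧
      ∀ lam : Fin p → ℝ, (NefZ (N' + 1) δ lam ↔ Ineq S dF c β u lam) ∧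
        (NefZ (N' + 1) δ lam ↔ ∃ t : Fin N0 → ℝ, (∀ b, 0 ≤ t b) ∧
          ∀ i, lam i = ∑ b, t b * h b i) := by
  classical
  -- the common denominator
  obtain ⟨L, hL, hden⟩ := Pool.Agent.Y169.TH.exists_den
    (Sum.elim (fun z : {σ // σ ∈ S} × Fin p × Fin r => u z.1.1 z.2.1 z.2.2)
      fun z : {s // s ∈ S.biUnion id} × Fin p => c z.2 z.1.1)
  choose U hU using hden
  have hLq : (0 : ℚ) < L := by exact_mod_cast hL
  have hLr : (0 : ℝ) < L := by exact_mod_cast hL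
  have hUu : ∀ (σ : {σ // σ ∈ S}) i k, (L : ℚ) * u σ.1 i k = U (Sum.inl (σ, i, k)) :=
    fun σ i k => hU (Sum.inl (σ, i, k))
  have hUc : ∀ (s : {s // s ∈ S.biUnion id}) i, (L : ℚ) * c i s.1 = U (Sum.inr (s, i)) :=
    fun s i => hU (Sum.inr (s, i))
  have hUc' : ∀ (s : {s // s ∈ S.biUnion id}) i, (L : ℝ) * c i s.1 = U (Sum.inr (s, i)) := by
    intro s i
    have h1 := congrArg (fun z : ℚ => (z : ℝ)) (hUc s i)
    push_cast at h1
    exact h1
  have hUu' : ∀ (σ : {σ // σ ∈ S}) i k, (L : ℝ) * u σ.1 i k = U (Sum.inl (σ, i, k)) := by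
    intro σ i k
    have h1 := congrArg (fun z : ℚ => (z : ℝ)) (hUu σ i k)
    push_cast at h1
    exact h1
  -- the integral inequalities
  let A0 : (({σ // σ ∈ S} × Fin r) ⊕ ({σ // σ ∈ S} × {s // s ∈ S.biUnion id})) → Fin p → ℤ :=
    Sum.elim (fun z i => L * β i z.2 - dF z.2 * U (Sum.inl (z.1, i, z.2)))
      (fun z i => ∑ k, U (Sum.inl (z.1, i, k)) * (z.2.1 k : ℤ) + U (Sum.inr (z.2, i)))
  obtain ⟨N0, hh, hh1, hh2⟩ := real_cone fun z => Fin.append (A0 z) fun i => - A0 z i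
  -- the inequalities in terms of `A0`
  have hA1 : ∀ (lam : Fin p → ℝ) (σ : {σ // σ ∈ S}) t, ∑ i, (A0 (Sum.inl (σ, t)) i : ℝ) * lam i =
      L * (∑ i, lam i * β i t - dF t * ∑ i, lam i * u σ.1 i t) := by
    intro lam σ t
    rw [Finset.mul_sum, ← Finset.sum_sub_distrib, Finset.mul_sum]
    refine Finset.sum_congr rfl fun i _ => ?_
    change ((L * β i t - dF t * U (Sum.inl (σ, i, t)) : ℤ) : ℝ) * lam i = _
    push_cast
    rw [← hUu']
    ring
  have hA2 : ∀ (lam : Fin p → ℝ) (σ : {σ // σ ∈ S}) (s : {s // s ∈ S.biUnion id}),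
      ∑ i, (A0 (Sum.inr (σ, s)) i : ℝ) * lam i =
      L * (∑ k, (∑ i, lam i * u σ.1 i k) * (s.1 k : ℝ) + ∑ i, lam i * c i s.1) := by
    intro lam σ s
    have h1 : ∑ k, (∑ i, lam i * (u σ.1 i k : ℝ)) * (s.1 k : ℝ) =
        ∑ i, ∑ k, lam i * u σ.1 i k * (s.1 k : ℝ) := by
      rw [Finset.sum_comm]
      exact Finset.sum_congr rfl fun k _ => Finset.sum_mul _ _ _
    rw [h1, ← Finset.sum_add_distrib, Finset.mul_sum]
    refine Finset.sum_congr rfl fun i _ => ?_
    change ((∑ k, U (Sum.inl (σ, i, k)) * (s.1 k : ℤ) + U (Sum.inr (s, i)) : ℤ) : ℝ) * lam i = _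
    push_cast
    rw [← hUc', mul_add, Finset.mul_sum, add_mul, Finset.sum_mul]
    congr 1
    · refine Finset.sum_congr rfl fun k _ => ?_
      rw [← hUu']
      ring
    · ring
  have hiff : ∀ lam : Fin p → ℝ, Ineq S dF c β u lam ↔ ∀ z, 0 ≤ ∑ i, (A0 z i : ℝ) * lam i := by
    intro lam
    constructor
    · intro h z
      rcases z with ⟨σ, t⟩ | ⟨σ, s⟩
      · rw [hA1]
        refine mul_nonneg hLr.le ?_
        linarith [(h σ.1 σ.2).1 t]
      · rw [hA2]
        refine mul_nonneg hLr.le ?_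
        obtain ⟨τ, hτ, hs⟩ := Finset.mem_biUnion.1 s.2
        linarith [(h σ.1 σ.2).2 τ hτ s.1 hs]
    · intro h σ hσ
      refine ⟨fun t => ?_, fun τ hτ s hs => ?_⟩
      · have h1 := h (Sum.inl (⟨σ, hσ⟩, t))
        rw [hA1] at h1
        have h2 := nonneg_of_mul_nonneg_right h1 hLr
        linarith
      · have h1 := h (Sum.inr (⟨σ, hσ⟩, ⟨s, Finset.mem_biUnion.2 ⟨τ, hτ, hs⟩⟩))
        rw [hA2] at h1
        have h2 := nonneg_of_mul_nonneg_right h1 hLr
        linarith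
  -- the generators
  obtain ⟨h, hhd⟩ : ∃ h : Fin N0 → Fin p → ℤ, h = fun b i =>
    L * ((hh b (Fin.castAdd p i) : ℤ) - hh b (Fin.natAdd p i)) := ⟨_, rfl⟩
  have hAh : ∀ b z, 0 ≤ ∑ i, A0 z i * h b i := by
    intro b z
    have h1 := hh1 b z
    rw [Fin.sum_univ_add, ← Finset.sum_add_distrib] at h1
    have h2 : ∑ i, A0 z i * h b i = L * ∑ i, (Fin.append (A0 z) (fun i => - A0 z i)
        (Fin.castAdd p i) * (hh b (Fin.castAdd p i) : ℤ) + Fin.append (A0 z) (fun i => - A0 z i)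
        (Fin.natAdd p i) * (hh b (Fin.natAdd p i) : ℤ)) := by
      rw [Finset.mul_sum]
      refine Finset.sum_congr rfl fun i _ => ?_
      rw [Fin.append_left, Fin.append_right, hhd]
      ring
    rw [h2]
    exact mul_nonneg (by positivity) h1
  have hineq : ∀ b, Ineq S dF c β u fun i => (h b i : ℝ) := by
    intro b
    rw [hiff]
    intro z
    have h1 := hAh b z
    exact_mod_cast h1
  have hbpf : ∀ b, Bpf (N' + 1) δ (h b) := by
    intro b
    have h1 := hineq b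
    refine bpf_cartier H hr hcf hS hu (fun σ hσ t => ?_) (fun σ hσ s hs => ?_) (fun v hv => ?_)
    · have h2 := (h1 σ hσ).1 t
      beta_reduce at h2
      exact_mod_cast h2
    · obtain ⟨τ, hτ, hs'⟩ := Finset.mem_biUnion.1 hs
      have h2 := (h1 σ hσ).2 τ hτ s hs'
      beta_reduce at h2
      have h3 : - ∑ i, (h b i : ℚ) * c i s ≤ ∑ k, (∑ i, (h b i : ℚ) * u σ i k) * (s k : ℚ) := by
        exact_mod_cast h2
      refine le_trans (le_of_eq ?_) h3
      rw [← Finset.sum_neg_distrib]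
      exact Finset.sum_congr rfl fun i _ => by ring
    · obtain ⟨σ, hσ, hvσ⟩ := hS.cover v hv
      refine ⟨- ∑ i, ((hh b (Fin.castAdd p i) : ℤ) - hh b (Fin.natAdd p i)) *
        ∑ k, U (Sum.inl (⟨σ, hσ⟩, i, k)) * (v k : ℤ), ?_⟩
      push_cast
      rw [← Finset.sum_neg_distrib]
      refine Finset.sum_congr rfl fun i _ => ?_
      have h2 := hu σ hσ i v hv hvσ
      have h3 : ∑ k, (U (Sum.inl (⟨σ, hσ⟩, i, k)) : ℚ) * (v k : ℚ) = L * (- c i v) := by
        rw [h2, Finset.mul_sum]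
        refine Finset.sum_congr rfl fun k _ => ?_
        rw [← hUu]
        ring
      rw [h3, hhd]
      push_cast
      ring
  have hcomb : ∀ lam : Fin p → ℝ, Ineq S dF c β u lam → ∃ t : Fin N0 → ℝ, (∀ b, 0 ≤ t b) ∧
      ∀ i, lam i = ∑ b, t b * h b i := by
    intro lam hlam
    rw [hiff] at hlam
    obtain ⟨t, ht, hlt⟩ := hh2 (posneg lam) (posneg_nonneg lam) (fun z => by
      have h1 := sum_posneg lam (fun i => ((Fin.append (A0 z) (fun i => - A0 z i) i : ℤ) : ℝ))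
        (fun i => (A0 z i : ℝ)) (fun i => by rw [Fin.append_left]) (fun i => by
          rw [Fin.append_right]
          push_cast
          rfl)
      have h2 := hlam z
      have h3 : ∑ i, ((Fin.append (A0 z) (fun i => - A0 z i) i : ℤ) : ℝ) * posneg lam i =
          ∑ i, (A0 z i : ℝ) * lam i := by
        have h4 : ∑ i, (A0 z i : ℝ) * lam i = ∑ i, lam i * (A0 z i : ℝ) :=
          Finset.sum_congr rfl fun i _ => mul_comm _ _
        rw [h4, ← h1]
        exact Finset.sum_congr rfl fun i _ => mul_comm _ _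
      rw [h3]
      exact h2)
    refine ⟨fun b => t b / L, fun b => div_nonneg (ht b) hLr.le, fun i => ?_⟩
    have h1 : lam i = posneg lam (Fin.castAdd p i) - posneg lam (Fin.natAdd p i) := by
      rw [posneg, Fin.append_left, Fin.append_right]
      rcases le_total (lam i) 0 with h | h
      · rw [max_eq_right h, max_eq_left (by linarith : (0 : ℝ) ≤ - lam i)]
        ring
      · rw [max_eq_left h, max_eq_right (by linarith : - lam i ≤ (0 : ℝ))]
        ring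
    rw [h1, hlt, hlt, ← Finset.sum_sub_distrib]
    refine Finset.sum_congr rfl fun b _ => ?_
    rw [hhd]
    push_cast
    field_simp
  refine ⟨N0, h, hbpf, fun lam => ?_⟩
  have h1 : NefZ (N' + 1) δ lam → Ineq S dF c β u lam :=
    fun hn => ineq_of_nef H hr hdF hΦ hvv hcf hS hu hn
  have h2 : (∃ t : Fin N0 → ℝ, (∀ b, 0 ≤ t b) ∧ ∀ i, lam i = ∑ b, t b * h b i) →
      NefZ (N' + 1) δ lam := by
    rintro ⟨t, ht, hlt⟩
    exact nefZ_of hbpf ht hlt
  exact ⟨⟨h1, fun h3 => h2 (hcomb lam h3)⟩, ⟨fun h3 => hcomb lam (h1 h3), h2⟩⟩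

end Pool.Agent.Q57.FT
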