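import Pool.Agent.Q57.FT.Mod
import Pool.Agent.Q57.GG.GeoB

/-!
The asymptotic orders of the sections of `∑ i, μ i D i + j A` are computed by finitely many sections,
for toroidal divisors `D i` on covers of products of projective spaces.
-/

set_option autoImplicit false
set_option linter.overlappingInstances false
set_option linter.unusedSectionVars false
set_option maxHeartbeats 1000000

open FF MvPolynomial Pool.Agent.W603.LV Pool.Agent.W602.GT Pool.Agent.W602.Cov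
open Pool.Agent.TH756.PR Pool.Agent.TH122.AB Pool.Agent.TH756.PN
open Pool.Agent.Y169.CH Pool.Agent.Y169.CH.Cvr Pool.Agent.Q57.TP Pool.Agent.Q57.TQ
open Pool.Agent.Q57.GM Pool.Agent.Q57.GH Pool.Agent.Q57.FG Pool.Agent.Q57.GG

namespace Pool.Agent.Q57.FT

/-- the functionals of the approximation -/
def fnT (p r : ℕ) (A : Fin p → ℤ) (l : Fin r → ℤ) :
    Option (Fin p) → (((Fin p → ℤ) × (Fin r → ℤ)) →+ ℤ)
  | none => AddMonoidHom.mk' (fun γ => ∑ i, A i * γ.1 i + ∑ k, l k * γ.2 k) (by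
      intro x y
      simp only [Prod.fst_add, Prod.snd_add, Pi.add_apply, mul_add, Finset.sum_add_distrib]
      ring)
  | some i => AddMonoidHom.mk' (fun γ => γ.1 i) (by
      intro x y
      rfl)

theorem fnT_none {p r : ℕ} (A : Fin p → ℤ) (l : Fin r → ℤ) (γ : (Fin p → ℤ) × (Fin r → ℤ)) :
    fnT p r A l none γ = ∑ i, A i * γ.1 i + ∑ k, l k * γ.2 k := rfl

theorem fnT_some {p r : ℕ} (A : Fin p → ℤ) (l : Fin r → ℤ) (γ : (Fin p → ℤ) × (Fin r → ℤ))
    (i : Fin p) : fnT p r A l (some i) γ = γ.1 i := rfl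

variable {r R N' p : ℕ} {n : Fin r → ℕ} {K : Type} [Field K] [Algebra ℂ K]
  {e : ((i : Fin r) × Fin (n i)) ≃ Fin (N' + 1)} {Φ : Blk ℂ (N' + 1) r} {C : Cvr Φ K R}
  {dF : Fin r → ℕ} {x : ∀ i, Fin (n i + 1) → K} {F : ∀ i, MvPolynomial (Fin (n i + 1)) ℂ}
  {c : Fin p → (Fin r → ℕ) → ℚ} {β : Fin p → Fin r → ℤ} {δ : Fin p → Place ℂ K → ℚ}

/-- **The asymptotic orders**, with the sections of the lattice points. -/
theorem geoT (H : Mon e C dF x F) (hdF : ∀ i, 1 ≤ dF i) (hΦ : Smo Φ)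
    (hcf : ∀ i, CoefT dF x F (c i) (β i) (δ i)) (hle : ∀ i v, Adm C.M C.a v → c i v ≤ 0)
    (hmul : ∀ i v (r : ℕ), 1 ≤ r → Adm C.M C.a v → - c i (r • v) ≤ r * (- c i v))
    {T : Finset (Fin r → ℕ)} (hTadm : ∀ s ∈ T, Adm C.M C.a s)
    (hTgen : ∀ v, Adm C.M C.a v → ∃ w : (Fin r → ℕ) → ℚ, (∀ s, 0 ≤ w s) ∧
      (∀ k, ∑ s ∈ T, w s * s k ≤ v k) ∧ ∀ i, - c i v ≤ ∑ s ∈ T, w s * (- c i s)) :
    ∃ (N0 : ℕ) (g : Fin N0 → Fin p →₀ ℕ) (f : Fin N0 → K),
      (∀ b, g b ≠ 0 ∧ f b ≠ 0 ∧ FSec (N' + 1) δ (g b) (f b)) ∧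
      (∀ b, ∃ (y : Fin r → ℤ) (l : ∀ i, Fin (n i + 1)), f b = fT dF x F (bt β (g b)) y l ∧
        (∀ t, (dF t : ℤ) * y t ≤ bt β (g b) t) ∧
        ∀ v, Adm C.M C.a v → ∑ i, (g b i : ℚ) * (- c i v) ≤
          ((∑ k, (v k : ℤ) * y k : ℤ) : ℚ)) ∧
      (∀ (P : Place ℂ K) (S : Finset K), ∃ C1 : ℕ,
        ∀ (μ : Fin p →₀ ℕ) (j : ℕ) (η : K), FSecA (N' + 1) δ S μ j η → η = 0 ∨
            ∃ e : Fin N0 → ℕ,
              (∀ i, |∑ b, (e b : ℤ) * g b i - μ i| ≤ C1 * (j + 1)) ∧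
              ∑ b, (e b : ℤ) * P.ord (f b) ≤ P.ord η + C1 * (j + 1)) := by
  classical
  obtain ⟨L, hL, hden⟩ := Pool.Agent.Y169.TH.exists_den fun s : Fin p × T => - c s.1 s.2.1
  choose q' hq' using hden
  obtain ⟨q, hq⟩ : ∃ q : Fin p → T → ℤ, q = fun i s => q' (i, s) := ⟨_, rfl⟩
  have hqs : ∀ i (s : T), (L : ℚ) * (- c i s.1) = q i s := fun i s => by
    rw [hq]
    exact hq' (i, s)
  have hdpos : ∀ k, (0 : ℤ) < dF k := fun k => by exact_mod_cast hdF k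
  obtain ⟨dd, hdd⟩ : ∃ dd : Fin r → ℤ, dd = fun t => (dF t : ℤ) := ⟨_, rfl⟩
  have hddt : ∀ t, dd t = dF t := fun t => by rw [hdd]
  obtain ⟨G, hG1, hG2⟩ := gordan (consT T dd β L q) consT_inj
  -- the sections
  let I := {g // g ∈ G} × (∀ i, Fin (n i + 1))
  let eI : I ≃ Fin (Fintype.card I) := Fintype.equivFin I
  obtain ⟨g, hgd⟩ : ∃ g : Fin (Fintype.card I) → Fin p →₀ ℕ,
    g = fun b => toN (eI.symm b).1.1.1 := ⟨_, rfl⟩
  obtain ⟨f, hfd⟩ : ∃ f : Fin (Fintype.card I) → K,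
    f = fun b => fT dF x F (bt β (g b)) (eI.symm b).1.1.2 (eI.symm b).2 :=
    ⟨_, rfl⟩
  have hex : ∀ b, ExT T dd β L q (eI.symm b).1.1 := fun b =>
    (hG1 _ (eI.symm b).1.2).2
  have hgi : ∀ b i, ((g b i : ℕ) : ℤ) = (eI.symm b).1.1.1 i := fun b i => by
    rw [hgd]
    exact toN_coe (hex b).nn i
  have hbt : ∀ b t, bt β (g b) t = ∑ i, (eI.symm b).1.1.1 i * β i t := by
    intro b t
    unfold bt
    exact Finset.sum_congr rfl fun i _ => by rw [hgi]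
  have hdegE : ∀ b t, (dF t : ℤ) * (eI.symm b).1.1.2 t ≤ bt β (g b) t := by
    intro b t
    have h1 := hex b (Sum.inr (Sum.inr (Sum.inr t)))
    rw [consT_deg, hddt] at h1
    rw [hbt]
    linarith
  have hadmE : ∀ b v, Adm C.M C.a v → ∑ i, (g b i : ℚ) * (- c i v) ≤
      ((∑ k, (v k : ℤ) * (eI.symm b).1.1.2 k : ℤ) : ℚ) := by
    intro b v hv
    obtain ⟨w, hw, hwv, hwc⟩ := hTgen v hv
    have h1 := exT_adm hL hqs (hex b) hw hwv hwc
    refine le_trans (le_of_eq ?_) h1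
    refine Finset.sum_congr rfl fun i _ => ?_
    have h2 : ((g b i : ℕ) : ℚ) = (eI.symm b).1.1.1 i := by exact_mod_cast hgi b i
    rw [h2]
  refine ⟨Fintype.card I, g, f, fun b => ⟨?_, ?_, ?_⟩, fun b => ⟨(eI.symm b).1.1.2,
    (eI.symm b).2, ?_, hdegE b, hadmE b⟩, fun P S => ?_⟩
  · -- the degrees are not zero
    intro h0
    have h1 : (eI.symm b).1.1.1 = 0 := by
      funext i
      rw [← hgi b i, h0]
      rfl
    refine (hG1 _ (eI.symm b).1.2).1 (Prod.ext h1 ?_)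
    funext k
    have h2 := hdegE b k
    rw [hbt, h1] at h2
    simp only [Pi.zero_apply, zero_mul, Finset.sum_const_zero] at h2
    have h3 : 0 ≤ (eI.symm b).1.1.2 k := hex b (Sum.inr (Sum.inl k))
    have h4 := hdpos k
    refine le_antisymm ?_ h3
    by_contra hcon
    push Not at hcon
    have h5 := mul_pos h4 hcon
    exact absurd h2 (not_le.2 h5)
  · rw [hfd]
    exact fT_ne H _ _ _
  · rw [hfd]
    exact fT_sec H hcf (hdegE b) (hadmE b) _
  · rw [hfd]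
  -- the orders
  obtain ⟨α, l, v, hdat⟩ := H.exists_dat P
  choose X hX using fun s : T => C.exists_dir (hTadm s.1 s.2).1 (hTadm s.1 s.2).2
  obtain ⟨N0, βK, Q, c1, hQ, hstr⟩ := sec_fun C hΦ X S
  obtain ⟨o, ho⟩ : ∃ o : Fin r → ℤ, o = fun t => P.ord (x t 0) := ⟨_, rfl⟩
  have ho' : ∀ t, P.ord (x t 0) = o t := fun t => by rw [ho]
  obtain ⟨AL, hAL⟩ : ∃ AL : Fin p → ℤ, AL = fun i => ∑ t, β i t * α t := ⟨_, rfl⟩
  obtain ⟨Cs, hCs⟩ := approx (consT T dd β L q) consT_inj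
    (Sum.elim (fun _ => (L : ℤ) * c1) (Sum.elim (fun _ => 0) (Sum.elim (fun _ => 0)
      fun _ => (c1 : ℤ))))
    (fnT p r AL fun k => (v k : ℤ))
  obtain ⟨B, hB⟩ : ∃ B : ℤ, B = ∑ i, |P.ord (βK i)| := ⟨_, rfl⟩
  have hB0' : 0 ≤ B := by
    rw [hB]
    exact Finset.sum_nonneg fun _ _ => abs_nonneg _
  have hBle : ∀ i, - B ≤ P.ord (βK i) := by
    intro i
    have h1 := Finset.single_le_sum (f := fun i => |P.ord (βK i)|) (fun _ _ => abs_nonneg _)
      (Finset.mem_univ i)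
    have h2 := neg_abs_le (P.ord (βK i))
    rw [hB]
    linarith
  obtain ⟨A, hA⟩ : ∃ A : ℤ, A = ∑ i, |α i - o i| := ⟨_, rfl⟩
  have hA0 : 0 ≤ A := by
    rw [hA]
    exact Finset.sum_nonneg fun _ _ => abs_nonneg _
  obtain ⟨C1, hC1⟩ : ∃ C1 : ℕ, (C1 : ℤ) = Cs + A * c1 + B + |P.ord Q| := by
    have h1 : 0 ≤ (Cs : ℤ) + A * c1 + B + |P.ord Q| := by positivity
    exact ⟨_, Int.toNat_of_nonneg h1⟩
  refine ⟨C1, fun μ j η hη => ?_⟩
  by_cases hη0 : η = 0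
  · exact Or.inl hη0
  right
  have hcF := coefT_coefF H hcf hle μ
  obtain ⟨Rp, hR, hRs⟩ := hstr hcF (fun v r hr hv => by
    simp only [← Finset.sum_neg_distrib, Finset.mul_sum]
    refine Finset.sum_le_sum fun i _ => ?_
    have h1 := mul_le_mul_of_nonneg_left (hmul i v r hr hv) (by positivity : (0 : ℚ) ≤ μ i)
    linarith) 1 j _ (fsecA_secF (e := e) H hη)
  obtain ⟨z, hz⟩ : ∃ z, z = η * ∏ t, x t 0 ^ (- bt β μ t) := ⟨_, rfl⟩
  have hx0 : ∏ t, x t 0 ^ (- bt β μ t) ≠ 0 :=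
    Finset.prod_ne_zero_iff.2 fun t _ => zpow_ne_zero _ (H.hx t 0)
  have hz0 : z ≠ 0 := by
    rw [hz]
    exact mul_ne_zero hη0 hx0
  rw [← hz] at hR
  have hsum : ∑ i, aeval C.Y (Rp i) * βK i ≠ 0 := by
    rw [← hR]
    exact mul_ne_zero hz0 (pow_ne_zero _ hQ)
  have hYne : ∀ b, C.Y b ≠ 0 := fun b => C.ae_ne (Blk.yp_ne0 Φ b)
  obtain ⟨i, a, ha, hia⟩ := ord_sum_low P hYne Rp βK hsum
  rw [← hR, P.ord_mul hz0 (pow_ne_zero _ hQ), P.ord_pow] at hia
  obtain ⟨hwbd, hT1⟩ := hRs i a ha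
  -- the lattice point
  obtain ⟨a', ha'⟩ : ∃ a' : Fin r → ℤ, a' = fun k => (a (Φ.c k) : ℤ) := ⟨_, rfl⟩
  obtain ⟨μ', hμ'⟩ : ∃ μ' : Fin p → ℤ, μ' = fun i => ((μ i : ℕ) : ℤ) := ⟨_, rfl⟩
  have hbμ : ∀ t, ∑ i, μ' i * β i t = bt β μ t := fun t => by rw [hμ']; rfl
  have hcons : ∀ s, - ((Sum.elim (fun _ => (L : ℤ) * c1) (Sum.elim (fun _ => 0)
      (Sum.elim (fun _ => 0) fun _ => (c1 : ℤ))) :
        T ⊕ (Fin r ⊕ (Fin p ⊕ Fin r)) → ℤ) s * ((j + 1 : ℕ) : ℤ)) ≤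
      consT T dd β L q (μ', a') s := by
    intro s
    rcases s with s | k | i' | t
    · rw [consT_vec, Sum.elim_inl]
      have h1 := hT1 s
      rw [hX] at h1
      have hLq : (0 : ℚ) < L := by exact_mod_cast hL
      have h2 := mul_le_mul_of_nonneg_left h1 hLq.le
      have h4 : ((∑ i, q i s * μ' i : ℤ) : ℚ) = L * (- ∑ i, (μ i : ℚ) * c i s.1) := by
        push_cast
        rw [hμ', ← Finset.sum_neg_distrib, Finset.mul_sum]
        refine Finset.sum_congr rfl fun i _ => ?_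
        rw [← hqs i s]
        push_cast
        ring
      have h3 : (((- ((L : ℤ) * c1 * ((j + 1 : ℕ) : ℤ)) : ℤ)) : ℚ) ≤
          ((L * ∑ k, (s.1 k : ℤ) * a' k - ∑ i, q i s * μ' i : ℤ) : ℚ) := by
        rw [Int.cast_sub, h4, ha']
        push_cast at h2 ⊢
        linarith
      exact_mod_cast h3
    · rw [consT_coord, Sum.elim_inr, Sum.elim_inl, zero_mul, neg_zero, ha']
      positivity
    · rw [consT_m, Sum.elim_inr, Sum.elim_inr, Sum.elim_inl, zero_mul, neg_zero, hμ']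
      positivity
    · rw [consT_deg, Sum.elim_inr, Sum.elim_inr, Sum.elim_inr, hbμ, hddt]
      have h1 := hwbd t
      rw [wbd_c, H.hΦD] at h1
      push_cast at h1
      have h2 : (0 : ℤ) ≤ ∑ b ∈ Finset.univ.erase (Φ.c t), (if Φ.τ b = t then (a b : ℤ) else 0) := by
        refine Finset.sum_nonneg fun b _ => ?_
        split_ifs
        · positivity
        · exact le_rfl
      rw [ha']
      push_cast
      linarith
  obtain ⟨γ0, hγ0, hγ0'⟩ := hCs (μ', a') (j + 1) hcons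
  -- the monomial
  obtain ⟨e', he'⟩ := closure_comb G (hG2 γ0 hγ0)
  obtain ⟨ex, hexd⟩ : ∃ ex : Fin (Fintype.card I) → ℕ,
    ex = fun b => if (eI.symm b).2 = l then e' (eI.symm b).1.1 else 0 := ⟨_, rfl⟩
  have hsumI : ∀ f : I → ℤ, ∑ b, (ex b : ℤ) * f (eI.symm b) =
      ∑ g : {g // g ∈ G}, (e' g.1 : ℤ) * f (g, l) := by
    intro f
    have h1 : ∑ b, (ex b : ℤ) * f (eI.symm b) =
        ∑ y : I, ((if y.2 = l then e' y.1.1 else 0 : ℕ) : ℤ) * f y := by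
      rw [← Equiv.sum_comp eI.symm]
      exact Finset.sum_congr rfl fun b _ => by rw [hexd]
    rw [h1, Fintype.sum_prod_type]
    refine Finset.sum_congr rfl fun g _ => ?_
    rw [Finset.sum_eq_single l]
    · rw [if_pos rfl]
    · intro l' _ hl'
      dsimp only
      rw [if_neg hl', Nat.cast_zero, zero_mul]
    · intro h
      exact absurd (Finset.mem_univ _) h
  have hsumG : ∀ f : ((Fin p → ℤ) × (Fin r → ℤ)) →+ ℤ,
      ∑ g : {g // g ∈ G}, ((e' g.1 : ℕ) : ℤ) * f g.1 = f γ0 := by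
    intro f
    conv_rhs => rw [he', map_sum]
    rw [← Finset.sum_coe_sort G]
    exact Finset.sum_congr rfl fun b _ => by rw [map_nsmul, nsmul_eq_mul]
  have hCsC : (Cs : ℤ) ≤ C1 := by
    rw [hC1]
    have : (0 : ℤ) ≤ A * c1 := by positivity
    have := abs_nonneg (P.ord Q)
    linarith
  refine ⟨ex, fun i => ?_, ?_⟩
  · have h1 := hγ0' (some i)
    rw [fnT_some, fnT_some, abs_sub_comm] at h1
    have h2 := hsumG (fnT p r AL (fun k => (v k : ℤ)) (some i))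
    simp only [fnT_some] at h2
    have h3 : ∑ b, ((ex b : ℕ) : ℤ) * ((g b i : ℕ) : ℤ) = γ0.1 i := by
      rw [← h2]
      have h4 := hsumI fun y => y.1.1.1 i
      rw [← h4]
      exact Finset.sum_congr rfl fun b _ => by rw [hgi]
    rw [h3]
    have h4 : ((μ i : ℕ) : ℤ) = μ' i := by rw [hμ']
    rw [h4]
    refine h1.trans ?_
    push_cast
    exact mul_le_mul_of_nonneg_right hCsC (by positivity)
  · have hord : ∀ b, (eI.symm b).2 = l → P.ord (f b) =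
        fnT p r AL (fun k => (v k : ℤ)) none (eI.symm b).1.1 := by
      intro b hb
      rw [hfd]
      dsimp only
      rw [ord_fT H hdat, fnT_none, hb, hAL]
      have h1 : ∑ i, (bt β (g b) i - dF i * (eI.symm b).1.1.2 i) *
          (P.ord (x i (l i)) - α i) = 0 := by
        refine Finset.sum_eq_zero fun i _ => ?_
        rw [hdat.h2, sub_self, mul_zero]
      rw [h1, add_zero, add_comm]
      congr 1
      simp only [hbt, Finset.sum_mul]
      rw [Finset.sum_comm]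
      exact Finset.sum_congr rfl fun i _ => Finset.sum_congr rfl fun t _ => by ring
    have h1 := hsumG (fnT p r AL (fun k => (v k : ℤ)) none)
    have h2 : ∑ b, (ex b : ℤ) * P.ord (f b) =
        fnT p r AL (fun k => (v k : ℤ)) none γ0 := by
      rw [← h1]
      have h4 := hsumI fun y => fnT p r AL (fun k => (v k : ℤ)) none y.1.1
      rw [← h4]
      refine Finset.sum_congr rfl fun b _ => ?_
      by_cases hb : (eI.symm b).2 = l
      · rw [hord b hb]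
      · rw [hexd]
        dsimp only
        rw [if_neg hb, Nat.cast_zero, zero_mul, zero_mul]
    rw [h2]
    have h3 := (abs_le.1 (hγ0' none)).1
    rw [fnT_none (γ := (μ', a'))] at h3
    dsimp only at h3
    have hordη : P.ord z = P.ord η - ∑ t, bt β μ t * o t := by
      rw [hz, P.ord_mul hη0 hx0, ord_prod' P Finset.univ _ fun t _ => zpow_ne_zero _ (H.hx t 0),
        sub_eq_add_neg, ← Finset.sum_neg_distrib]
      congr 1
      refine Finset.sum_congr rfl fun t _ => ?_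
      rw [P.ord_zpow, ho']
      ring
    have hmono := ord_mono_low H hdat a
    have hβ := hBle i
    simp only [ho'] at hmono
    -- the degrees
    have hdeg : ∑ t, (α t - o t) * bt β μ t - A * c1 * (j + 1) ≤
        ∑ t, (α t - o t) * (Φ.wbd a t : ℤ) := by
      rw [hA, Finset.sum_mul, Finset.sum_mul, ← Finset.sum_sub_distrib]
      refine Finset.sum_le_sum fun t _ => ?_
      have h1 := hwbd t
      have h2 : α t - o t ≤ 0 := by
        rw [← ho']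
        linarith [hdat.h1 t 0]
      rw [abs_of_nonpos h2]
      have h3 := mul_le_mul_of_nonpos_left h1 h2
      push_cast at h3
      linarith
    have hs2 : ∑ t, (α t - o t) * bt β μ t = ∑ i, AL i * μ' i - ∑ t, bt β μ t * o t := by
      have h4 : ∑ i, AL i * μ' i = ∑ t, bt β μ t * α t := by
        rw [hAL]
        simp only [← hbμ, Finset.sum_mul]
        rw [Finset.sum_comm]
        exact Finset.sum_congr rfl fun i _ => Finset.sum_congr rfl fun t _ => by ring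
      rw [h4, ← Finset.sum_sub_distrib]
      exact Finset.sum_congr rfl fun t _ => by ring
    rw [hs2] at hdeg
    obtain ⟨ℓa, hℓa⟩ : ∃ ℓa, ℓa = ∑ k, (v k : ℤ) * a' k := ⟨_, rfl⟩
    have hℓa' : ∑ t, (v t : ℤ) * (a (Φ.c t) : ℤ) = ℓa := by rw [hℓa, ha']
    rw [hℓa'] at hmono
    rw [← hℓa] at h3
    obtain ⟨oz, hoz⟩ : ∃ oz, oz = P.ord z := ⟨_, rfl⟩
    obtain ⟨oQ, hoQ⟩ : ∃ oQ, oQ = P.ord Q := ⟨_, rfl⟩
    obtain ⟨oη, hoη⟩ : ∃ oη, oη = P.ord η := ⟨_, rfl⟩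
    obtain ⟨w0, hw0⟩ : ∃ w0, w0 = fnT p r AL (fun k => (v k : ℤ)) none γ0 := ⟨_, rfl⟩
    obtain ⟨sA, hsA⟩ : ∃ sA, sA = ∑ i, AL i * μ' i := ⟨_, rfl⟩
    obtain ⟨sb, hsb⟩ : ∃ sb, sb = ∑ t, bt β μ t * o t := ⟨_, rfl⟩
    rw [← hw0] at h3 ⊢
    rw [← hsA] at h3
    rw [← hsA, ← hsb] at hdeg
    rw [← hoz, ← hoη, ← hsb] at hordη
    rw [← hoz, ← hoQ] at hia
    rw [← hoQ] at hC1
    rw [← hoη]
    have h4 : sA - sb + ℓa - A * c1 * (j + 1) - B - (j + 1) * |oQ| ≤ oz := by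
      have h2 : ((j + 1 : ℕ) : ℤ) * oQ ≤ (j + 1) * |oQ| := by
        push_cast
        exact mul_le_mul_of_nonneg_left (le_abs_self _) (by positivity)
      linarith
    have h8 : B ≤ B * (j + 1) := by
      have : (0 : ℤ) ≤ B * j := by positivity
      linarith
    rw [hC1]
    push_cast at h3 ⊢
    linarith

end Pool.Agent.Q57.FT
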