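import Pool.Agent.Q57.FT.Sec
import Pool.Agent.Q57.GE.SecL
import Pool.Agent.Q57.GG.App
import Pool.Agent.Q57.FG.LatA

/-!
Sections of toroidal divisors in homogeneous coordinates, for covers of products of projective spaces.
-/

set_option autoImplicit false
set_option linter.overlappingInstances false
set_option linter.unusedSectionVars false
set_option maxHeartbeats 1000000

open FF MvPolynomial Pool.Agent.W603.LV Pool.Agent.W602.GT Pool.Agent.W602.Cov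
open Pool.Agent.TH756.PR Pool.Agent.TH122.AB Pool.Agent.TH756.PN
open Pool.Agent.Y169.CH Pool.Agent.Q57.TP Pool.Agent.Q57.TQ Pool.Agent.Q57.GH

namespace Pool.Agent.Q57.FT

section defs

variable {p : ℕ} {K : Type} [Field K] [Algebra ℂ K]

/-- `f` is a section of `∑ i, μ i • D i + j • A`, where `δ i P` is the coefficient of `D i` at `P`
and `A` is generated by the elements of `S` -/
def FSecA (N : ℕ) (δ : Fin p → Place ℂ K → ℚ) (S : Finset K) (μ : Fin p →₀ ℕ) (j : ℕ) (f : K) :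
    Prop :=
  ∀ P : Place ℂ K, Divisorial N P → f = 0 ∨ ∃ s ∈ S, s ≠ 0 ∧
    (j : ℚ) * P.ord s - ∑ i, (μ i : ℚ) * δ i P ≤ P.ord f

/-- `f` is a section of `∑ i, μ i • D i` -/
def FSec (N : ℕ) (δ : Fin p → Place ℂ K → ℚ) (μ : Fin p →₀ ℕ) (f : K) : Prop :=
  ∀ P : Place ℂ K, Divisorial N P → f = 0 ∨ - ∑ i, (μ i : ℚ) * δ i P ≤ P.ord f

theorem fsec_a {N : ℕ} {δ : Fin p → Place ℂ K → ℚ} {μ : Fin p →₀ ℕ} {f : K}
    (h : FSec N δ μ f) (j : ℕ) : FSecA N δ {1} μ j f := by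
  intro P hP
  refine (h P hP).imp id fun hle => ⟨1, by simp, one_ne_zero, ?_⟩
  rw [P.ord_one]
  push_cast
  linarith

theorem fsec_zero {N : ℕ} {δ : Fin p → Place ℂ K → ℚ} {μ : Fin p →₀ ℕ} : FSec N δ μ 0 :=
  fun _ _ => Or.inl rfl

theorem fsec_mul {N : ℕ} {δ : Fin p → Place ℂ K → ℚ} {μ μ' : Fin p →₀ ℕ} {f f' : K}
    (h : FSec N δ μ f) (h' : FSec N δ μ' f') : FSec N δ (μ + μ') (f * f') := by
  intro P hP
  by_cases h0 : f = 0
  · left
    rw [h0, zero_mul]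
  by_cases h0' : f' = 0
  · left
    rw [h0', mul_zero]
  right
  have h1 := (h P hP).resolve_left h0
  have h2 := (h' P hP).resolve_left h0'
  rw [P.ord_mul h0 h0']
  have h3 : ∑ i, (((μ + μ') i : ℕ) : ℚ) * δ i P = ∑ i, (μ i : ℚ) * δ i P +
      ∑ i, (μ' i : ℚ) * δ i P := by
    rw [← Finset.sum_add_distrib]
    refine Finset.sum_congr rfl fun i _ => ?_
    rw [Finsupp.add_apply]
    push_cast
    ring
  rw [h3]
  push_cast
  linarith

theorem fsec_one {N : ℕ} {δ : Fin p → Place ℂ K → ℚ} : FSec N δ 0 (1 : K) := by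
  intro P _
  right
  simp [P.ord_one]

theorem fsec_pow {N : ℕ} {δ : Fin p → Place ℂ K → ℚ} {μ : Fin p →₀ ℕ} {f : K}
    (h : FSec N δ μ f) (e : ℕ) : FSec N δ (e • μ) (f ^ e) := by
  induction e with
  | zero =>
    rw [zero_smul, pow_zero]
    exact fsec_one
  | succ e ih =>
    rw [succ_nsmul, pow_succ]
    exact fsec_mul ih h

theorem fsec_prod {N N0 : ℕ} {δ : Fin p → Place ℂ K → ℚ} {g : Fin N0 → Fin p →₀ ℕ}
    {f : Fin N0 → K} (h : ∀ b, FSec N δ (g b) (f b)) (e : Fin N0 → ℕ) :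
    FSec N δ (∑ b, e b • g b) (∏ b, f b ^ e b) := by
  classical
  have key : ∀ s : Finset (Fin N0), FSec N δ (∑ b ∈ s, e b • g b) (∏ b ∈ s, f b ^ e b) := by
    intro s
    induction s using Finset.induction_on with
    | empty => simpa using fsec_one (N := N) (δ := δ)
    | insert b s hb ih =>
      rw [Finset.sum_insert hb, Finset.prod_insert hb]
      exact fsec_mul (fsec_pow (h b) (e b)) ih
  exact key Finset.univ

end defs

variable {r R N' p : ℕ} {n : Fin r → ℕ} {K : Type} [Field K] [Algebra ℂ K]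
  {e : ((i : Fin r) × Fin (n i)) ≃ Fin (N' + 1)} {Φ : Blk ℂ (N' + 1) r} {C : Cvr Φ K R}
  {dF : Fin r → ℕ} {x : ∀ i, Fin (n i + 1) → K} {F : ∀ i, MvPolynomial (Fin (n i + 1)) ℂ}

/-- the coefficients of the toroidal divisor with coefficient function `c` and degrees `β` -/
structure CoefT (dF : Fin r → ℕ) (x : ∀ i, Fin (n i + 1) → K)
    (F : ∀ i, MvPolynomial (Fin (n i + 1)) ℂ) (c : (Fin r → ℕ) → ℚ) (β : Fin r → ℤ)
    (δ : Place ℂ K → ℚ) : Prop where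
  h0 : c 0 = 0
  hδ : ∀ P α l v, DatH P dF x F α l v → δ P = c v - ∑ t, (β t : ℚ) * α t

theorem datH_multA (H : Mon e C dF x F) {P : Place ℂ K} {α : Fin r → ℤ}
    {l : ∀ i, Fin (n i + 1)} {v : Fin r → ℕ} (h : DatH P dF x F α l v) :
    MultA C P (fun t => α t - P.ord (x t 0)) v := by
  refine ⟨fun t => ?_, fun b => ?_, fun t => ?_, fun t => ?_⟩
  · dsimp only
    linarith [h.h1 t 0]
  · rw [H.ordZ, H.hτ]
    linarith [h.h1 (e.symm b).1 (e.symm b).2.succ]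
  · rcases Fin.eq_zero_or_eq_succ (l t) with h1 | ⟨l', h1⟩
    · left
      have h2 := h.h2 t
      rw [h1] at h2
      dsimp only
      linarith
    · right
      refine ⟨e ⟨t, l'⟩, by rw [H.hτ, e.symm_apply_apply], ?_⟩
      have h2 := h.h2 t
      rw [h1] at h2
      rw [H.ordZ, e.symm_apply_apply, h2]
  · rw [h.ordF H, H.hΦD]

theorem multA_unique {P : Place ℂ K} {α α' : Fin r → ℤ} {v v' : Fin r → ℕ}
    (h : MultA C P α v) (h' : MultA C P α' v') : α = α' ∧ v = v' := by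
  have key : ∀ {α α' : Fin r → ℤ} {v v' : Fin r → ℕ}, MultA C P α v → MultA C P α' v' →
      ∀ t, α t ≤ α' t := by
    intro α α' v v' h h' t
    rcases h'.2.2.1 t with h1 | ⟨b, hb, h1⟩
    · rw [h1]
      exact h.1 t
    · rw [h1]
      have h2 := h.2.1 b
      rwa [hb] at h2
  have h1 : α = α' := funext fun t => le_antisymm (key h h' t) (key h' h t)
  refine ⟨h1, funext fun t => ?_⟩
  have h2 := h.2.2.2 t
  have h3 := h'.2.2.2 t
  rw [h2, h1] at h3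
  have h4 : (v t : ℤ) = v' t := by linarith
  exact_mod_cast h4

/-- the total degrees -/
def bt (β : Fin p → Fin r → ℤ) (μ : Fin p →₀ ℕ) (t : Fin r) : ℤ := ∑ i, (μ i : ℤ) * β i t

/-- the divisor in affine coordinates -/
theorem coefT_coefF (H : Mon e C dF x F) {c : Fin p → (Fin r → ℕ) → ℚ} {β : Fin p → Fin r → ℤ}
    {δ : Fin p → Place ℂ K → ℚ} (hcf : ∀ i, CoefT dF x F (c i) (β i) (δ i))
    (hle : ∀ i v, Adm C.M C.a v → c i v ≤ 0) (μ : Fin p →₀ ℕ) :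
    CoefF C (fun v => ∑ i, (μ i : ℚ) * c i v) (bt β μ)
      (fun P => ∑ i, (μ i : ℚ) * δ i P + ∑ t, (bt β μ t : ℚ) * P.ord (x t 0)) := by
  refine ⟨?_, fun v hv => ?_, fun P α v h => ?_⟩
  · refine Finset.sum_eq_zero fun i _ => ?_
    rw [(hcf i).h0, mul_zero]
  · exact Finset.sum_nonpos fun i _ => mul_nonpos_of_nonneg_of_nonpos (by positivity) (hle i v hv)
  · obtain ⟨α', l, v', hdat⟩ := H.exists_dat P
    obtain ⟨h1, h2⟩ := multA_unique h (datH_multA H hdat)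
    subst h2
    have h3 : ∀ i, (μ i : ℚ) * δ i P = μ i * c i v - ∑ t, ((μ i : ℤ) * β i t : ℤ) * (α' t : ℚ) := by
      intro i
      rw [(hcf i).hδ P α' l v hdat, mul_sub, Finset.mul_sum]
      congr 1
      refine Finset.sum_congr rfl fun t _ => ?_
      push_cast
      ring
    rw [Finset.sum_congr rfl fun i _ => h3 i, Finset.sum_sub_distrib, Finset.sum_comm]
    have h4 : ∀ t, ∑ i, (((μ i : ℤ) * β i t : ℤ) : ℚ) * (α' t : ℚ) = (bt β μ t : ℚ) * α' t := by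
      intro t
      unfold bt
      rw [Int.cast_sum, Finset.sum_mul]
    rw [Finset.sum_congr rfl fun t _ => h4 t, h1]
    have h5 : ∑ t, (bt β μ t : ℚ) * ((α' t - P.ord (x t 0) : ℤ) : ℚ) =
        ∑ t, (bt β μ t : ℚ) * α' t - ∑ t, (bt β μ t : ℚ) * P.ord (x t 0) := by
      rw [← Finset.sum_sub_distrib]
      refine Finset.sum_congr rfl fun t _ => ?_
      push_cast
      ring
    rw [h5]
    ring

/-- the sections in affine coordinates -/
theorem fsecA_secF (H : Mon e C dF x F) {β : Fin p → Fin r → ℤ}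
    {δ : Fin p → Place ℂ K → ℚ} {S : Finset K} {μ : Fin p →₀ ℕ} {j : ℕ} {f : K}
    (h : FSecA (N' + 1) δ S μ j f) :
    SecF (N' + 1) (fun P => ∑ i, (μ i : ℚ) * δ i P + ∑ t, (bt β μ t : ℚ) * P.ord (x t 0))
      (pw S j) 1 (f * ∏ t, x t 0 ^ (- bt β μ t)) := by
  classical
  intro P hP
  by_cases hf : f = 0
  · left
    rw [hf, zero_mul]
  have hx0 : ∏ t, x t 0 ^ (- bt β μ t) ≠ 0 :=
    Finset.prod_ne_zero_iff.2 fun t _ => zpow_ne_zero _ (H.hx t 0)
  obtain ⟨s, hs, hs0, hle⟩ := (h P hP).resolve_left hf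
  refine Or.inr ⟨s ^ j, mem_pw.2 ⟨s, hs, rfl⟩, pow_ne_zero _ hs0, ?_⟩
  rw [P.ord_mul hf hx0, ord_prod' P Finset.univ _ fun t _ => zpow_ne_zero _ (H.hx t 0), P.ord_pow]
  have h1 : ∀ t, P.ord (x t 0 ^ (- bt β μ t)) = - (bt β μ t * P.ord (x t 0)) := by
    intro t
    rw [P.ord_zpow]
    ring
  rw [Finset.sum_congr rfl fun t _ => h1 t, Finset.sum_neg_distrib]
  push_cast
  linarith

/-- the section of a lattice point -/
noncomputable def fT (dF : Fin r → ℕ) (x : ∀ i, Fin (n i + 1) → K)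
    (F : ∀ i, MvPolynomial (Fin (n i + 1)) ℂ) (b : Fin r → ℤ) (y : Fin r → ℤ)
    (l : ∀ i, Fin (n i + 1)) : K :=
  ∏ i, (aeval (x i) (F i) ^ y i * x i (l i) ^ (b i - dF i * y i))

theorem fT_ne (H : Mon e C dF x F) (b y : Fin r → ℤ) (l : ∀ i, Fin (n i + 1)) :
    fT dF x F b y l ≠ 0 :=
  Finset.prod_ne_zero_iff.2 fun i _ => mul_ne_zero (zpow_ne_zero _ (H.hFx i))
    (zpow_ne_zero _ (H.hx i _))

theorem ord_fT (H : Mon e C dF x F) {P : Place ℂ K} {α : Fin r → ℤ}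
    {l' : ∀ i, Fin (n i + 1)} {v : Fin r → ℕ} (h : DatH P dF x F α l' v) (b y : Fin r → ℤ)
    (l : ∀ i, Fin (n i + 1)) :
    P.ord (fT dF x F b y l) = ∑ i, (v i : ℤ) * y i + ∑ i, b i * α i +
      ∑ i, (b i - dF i * y i) * (P.ord (x i (l i)) - α i) := by
  unfold fT
  rw [ord_prod' P Finset.univ _ fun i _ => mul_ne_zero (zpow_ne_zero _ (H.hFx i))
    (zpow_ne_zero _ (H.hx i _)), ← Finset.sum_add_distrib, ← Finset.sum_add_distrib]
  refine Finset.sum_congr rfl fun i _ => ?_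
  rw [P.ord_mul (zpow_ne_zero _ (H.hFx i)) (zpow_ne_zero _ (H.hx i _)), P.ord_zpow, P.ord_zpow,
    h.hv]
  ring

theorem ord_fT_ge (H : Mon e C dF x F) {P : Place ℂ K} {α : Fin r → ℤ}
    {l' : ∀ i, Fin (n i + 1)} {v : Fin r → ℕ} (h : DatH P dF x F α l' v) {b y : Fin r → ℤ}
    (hy : ∀ i, dF i * y i ≤ b i) (l : ∀ i, Fin (n i + 1)) :
    ∑ i, (v i : ℤ) * y i + ∑ i, b i * α i ≤ P.ord (fT dF x F b y l) := by
  rw [ord_fT H h]
  have h1 : 0 ≤ ∑ i, (b i - dF i * y i) * (P.ord (x i (l i)) - α i) := by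
    refine Finset.sum_nonneg fun i _ => mul_nonneg ?_ ?_
    · linarith [hy i]
    · linarith [h.h1 i (l i)]
  linarith

theorem fT_sec (H : Mon e C dF x F) {c : Fin p → (Fin r → ℕ) → ℚ} {β : Fin p → Fin r → ℤ}
    {δ : Fin p → Place ℂ K → ℚ} (hcf : ∀ i, CoefT dF x F (c i) (β i) (δ i)) {μ : Fin p →₀ ℕ}
    {y : Fin r → ℤ} (hy : ∀ i, dF i * y i ≤ bt β μ i)
    (hadm : ∀ v, Adm C.M C.a v → ∑ i, (μ i : ℚ) * (- c i v) ≤
      ((∑ k, (v k : ℤ) * y k : ℤ) : ℚ)) (l : ∀ i, Fin (n i + 1)) :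
    FSec (N' + 1) δ μ (fT dF x F (bt β μ) y l) := by
  intro P _
  right
  obtain ⟨α, l', v, hdat⟩ := H.exists_dat P
  have h1 := ord_fT_ge H hdat hy l
  have h2 : ∑ i, (μ i : ℚ) * (- c i v) ≤ ((∑ k, (v k : ℤ) * y k : ℤ) : ℚ) := by
    by_cases hv : v = 0
    · rw [hv]
      refine le_of_eq ?_
      simp [(hcf _).h0]
    · exact hadm v (hdat.adm H hv)
  have h3 : ∑ i, (μ i : ℚ) * δ i P = - ∑ i, (μ i : ℚ) * (- c i v) -
      ((∑ t, bt β μ t * α t : ℤ) : ℚ) := by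
    have h4 : ∀ i, (μ i : ℚ) * δ i P = - ((μ i : ℚ) * (- c i v)) -
        ∑ t, (((μ i : ℤ) * β i t * α t : ℤ) : ℚ) := by
      intro i
      rw [(hcf i).hδ P α l' v hdat, mul_sub, Finset.mul_sum]
      congr 1
      · ring
      · refine Finset.sum_congr rfl fun t _ => ?_
        push_cast
        ring
    rw [Finset.sum_congr rfl fun i _ => h4 i, Finset.sum_sub_distrib, Finset.sum_neg_distrib,
      Finset.sum_comm]
    congr 1
    push_cast
    refine Finset.sum_congr rfl fun t _ => ?_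
    unfold bt
    push_cast
    rw [Finset.sum_mul]
  rw [h3]
  have h5 : ((∑ i, (v i : ℤ) * y i + ∑ i, bt β μ i * α i : ℤ) : ℚ) ≤
      (P.ord (fT dF x F (bt β μ) y l) : ℚ) := by exact_mod_cast h1
  rw [Int.cast_add] at h5
  linarith

section lat

/-- the constraints for the exponents -/
def consT (T : Finset (Fin r → ℕ)) (dF : Fin r → ℤ) (β : Fin p → Fin r → ℤ) (L : ℤ)
    (q : Fin p → T → ℤ) :
    ((Fin p → ℤ) × (Fin r → ℤ)) →+ ((T ⊕ (Fin r ⊕ (Fin p ⊕ Fin r))) → ℤ) :=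
  AddMonoidHom.mk' (fun γ => Sum.elim
    (fun s => L * ∑ k, (s.1 k : ℤ) * γ.2 k - ∑ i, q i s * γ.1 i)
    (Sum.elim (fun k => γ.2 k) (Sum.elim (fun i => γ.1 i)
      (fun t => ∑ i, γ.1 i * β i t - dF t * γ.2 t)))) (by
    intro x y
    funext s
    rcases s with s | k | i | t
    · simp only [Sum.elim_inl, Pi.add_apply, Prod.fst_add, Prod.snd_add, mul_add,
        Finset.sum_add_distrib]
      ring
    · simp only [Sum.elim_inl, Sum.elim_inr, Pi.add_apply, Prod.snd_add]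
    · simp only [Sum.elim_inl, Sum.elim_inr, Pi.add_apply, Prod.fst_add]
    · simp only [Sum.elim_inr, Pi.add_apply, Prod.fst_add, Prod.snd_add, add_mul, mul_add,
        Finset.sum_add_distrib]
      ring)

variable {T : Finset (Fin r → ℕ)} {d : Fin r → ℤ} {β : Fin p → Fin r → ℤ} {L : ℤ}
  {q : Fin p → T → ℤ}

theorem consT_vec (γ : (Fin p → ℤ) × (Fin r → ℤ)) (s : T) : consT T d β L q γ (Sum.inl s) =
    L * ∑ k, (s.1 k : ℤ) * γ.2 k - ∑ i, q i s * γ.1 i := rfl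

theorem consT_coord (γ : (Fin p → ℤ) × (Fin r → ℤ)) (k : Fin r) :
    consT T d β L q γ (Sum.inr (Sum.inl k)) = γ.2 k := rfl

theorem consT_m (γ : (Fin p → ℤ) × (Fin r → ℤ)) (i : Fin p) :
    consT T d β L q γ (Sum.inr (Sum.inr (Sum.inl i))) = γ.1 i := rfl

theorem consT_deg (γ : (Fin p → ℤ) × (Fin r → ℤ)) (t : Fin r) :
    consT T d β L q γ (Sum.inr (Sum.inr (Sum.inr t))) =
      ∑ i, γ.1 i * β i t - d t * γ.2 t := rfl

theorem consT_inj : Function.Injective (consT T d β L q) := by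
  rw [injective_iff_map_eq_zero]
  intro γ hγ
  refine Prod.ext ?_ ?_
  · funext i
    exact congrFun hγ (Sum.inr (Sum.inr (Sum.inl i)))
  · funext k
    exact congrFun hγ (Sum.inr (Sum.inl k))

/-- the lattice points with the exact constraints -/
def ExT (T : Finset (Fin r → ℕ)) (d : Fin r → ℤ) (β : Fin p → Fin r → ℤ) (L : ℤ)
    (q : Fin p → T → ℤ) (γ : (Fin p → ℤ) × (Fin r → ℤ)) : Prop :=
  ∀ s, 0 ≤ consT T d β L q γ s

theorem ExT.nn {γ : (Fin p → ℤ) × (Fin r → ℤ)} (h : ExT T d β L q γ) (i : Fin p) :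
    0 ≤ γ.1 i := h (Sum.inr (Sum.inr (Sum.inl i)))

theorem ExT.nn2 {γ : (Fin p → ℤ) × (Fin r → ℤ)} (h : ExT T d β L q γ) (k : Fin r) :
    0 ≤ γ.2 k := h (Sum.inr (Sum.inl k))

/-- the lattice points with exact constraints satisfy all the inequalities -/
theorem exT_adm {c : Fin p → (Fin r → ℕ) → ℚ} {L : ℕ} (hL : 0 < L) {q : Fin p → T → ℤ}
    (hq : ∀ i (s : T), (L : ℚ) * (- c i s.1) = q i s)
    {γ : (Fin p → ℤ) × (Fin r → ℤ)} (h : ExT T d β L q γ) {v : Fin r → ℕ}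
    {w : (Fin r → ℕ) → ℚ} (hw : ∀ s, 0 ≤ w s) (hwv : ∀ k, ∑ s ∈ T, w s * s k ≤ v k)
    (hwc : ∀ i, - c i v ≤ ∑ s ∈ T, w s * (- c i s)) :
    ∑ i, (γ.1 i : ℚ) * (- c i v) ≤ ((∑ k, (v k : ℤ) * γ.2 k : ℤ) : ℚ) := by
  classical
  have hLq : (0 : ℚ) < L := by exact_mod_cast hL
  have hm : ∀ i, (0 : ℚ) ≤ γ.1 i := fun i => by exact_mod_cast h.nn i
  have h1 : ∀ s : T, ∑ i, (γ.1 i : ℚ) * (- c i s.1) ≤ ∑ k, (s.1 k : ℚ) * γ.2 k := by
    intro s
    have h2 := h (Sum.inl s)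
    rw [consT_vec] at h2
    have h3 : ((∑ i, q i s * γ.1 i : ℤ) : ℚ) ≤
        ((L * ∑ k, (s.1 k : ℤ) * γ.2 k : ℤ) : ℚ) := by
      exact_mod_cast (by linarith : ∑ i, q i s * γ.1 i ≤ L * ∑ k, (s.1 k : ℤ) * γ.2 k)
    push_cast at h3
    have h4 : (L : ℚ) * ∑ i, (γ.1 i : ℚ) * (- c i s.1) ≤
        L * ∑ k, (s.1 k : ℚ) * γ.2 k := by
      refine le_trans (le_of_eq ?_) h3
      rw [Finset.mul_sum]
      refine Finset.sum_congr rfl fun i _ => ?_
      rw [← hq i s]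
      ring
    exact le_of_mul_le_mul_left h4 hLq
  have h2 : ∀ k, (0 : ℚ) ≤ γ.2 k := fun k => by exact_mod_cast h.nn2 k
  calc ∑ i, (γ.1 i : ℚ) * (- c i v) ≤ ∑ i, (γ.1 i : ℚ) * ∑ s ∈ T, w s * (- c i s) :=
        Finset.sum_le_sum fun i _ => mul_le_mul_of_nonneg_left (hwc i) (hm i)
    _ = ∑ s ∈ T, w s * ∑ i, (γ.1 i : ℚ) * (- c i s) := by
        simp only [Finset.mul_sum]
        rw [Finset.sum_comm]
        exact Finset.sum_congr rfl fun s _ => Finset.sum_congr rfl fun i _ => by ring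
    _ ≤ ∑ s ∈ T, w s * ∑ k, (s k : ℚ) * γ.2 k :=
        Finset.sum_le_sum fun s hs => mul_le_mul_of_nonneg_left (h1 ⟨s, hs⟩) (hw s)
    _ = ∑ k, (∑ s ∈ T, w s * s k) * γ.2 k := by
        simp only [Finset.mul_sum, Finset.sum_mul]
        rw [Finset.sum_comm]
        exact Finset.sum_congr rfl fun k _ => Finset.sum_congr rfl fun s _ => by ring
    _ ≤ ∑ k, (v k : ℚ) * γ.2 k :=
        Finset.sum_le_sum fun k _ => mul_le_mul_of_nonneg_right (hwv k) (h2 k)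
    _ = _ := by
        push_cast
        rfl

end lat

end Pool.Agent.Q57.FT
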