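import Pool.Agent.Q57.FT.Geo

/-!
Nef real combinations of divisors are semiample, if finitely many sections compute the asymptotic
orders (functions instead of forms, following `Pool.Agent.Q57.GG.NefR`).
-/

set_option autoImplicit false
set_option linter.overlappingInstances false
set_option linter.unusedSectionVars false
set_option maxHeartbeats 1000000

open FF MvPolynomial Pool.Agent.W602.GT Pool.Agent.Q57.TP Pool.Agent.Q57.GM Pool.Agent.Q57.FG
open Pool.Agent.Q57.GG

namespace Pool.Agent.Q57.FT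

variable {p N : ℕ} {K : Type} [Field K] [Algebra ℂ K] {δ : Fin p → Place ℂ K → ℚ}

/-- the real combination `∑ i, lam i • D i` is nef (`lam i ≥ 0`) -/
def NefF (N : ℕ) (δ : Fin p → Place ℂ K → ℚ) (lam : Fin p → ℝ) : Prop :=
  ∃ S : Finset K, (∃ s ∈ S, s ≠ 0) ∧ ∀ M : ℕ, 1 ≤ M → ∃ j : ℕ, 1 ≤ j ∧
    ∀ P : Place ℂ K, Divisorial N P → ∃ μ : Fin p →₀ ℕ, (∀ i, |(μ i : ℝ) - j * M * lam i| ≤ j) ∧
      ∃ f : K, FSecA N δ S μ j f ∧ f ≠ 0 ∧ ∀ s ∈ S, s ≠ 0 →
          (P.ord f : ℚ) ≤ j * P.ord s - ∑ i, (μ i : ℚ) * δ i P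

/-- **Nef combinations are semiample.** -/
theorem semi_of_nefF {N0 : ℕ} {g : Fin N0 → Fin p →₀ ℕ} {f : Fin N0 → K}
    (hg : ∀ b, g b ≠ 0 ∧ f b ≠ 0 ∧ FSec N δ (g b) (f b))
    (hord : ∀ (P : Place ℂ K) (S : Finset K), ∃ C1 : ℕ,
        ∀ (μ : Fin p →₀ ℕ) (j : ℕ) (η : K), FSecA N δ S μ j η → η = 0 ∨
            ∃ e : Fin N0 → ℕ,
              (∀ i, |∑ b, (e b : ℤ) * g b i - μ i| ≤ C1 * (j + 1)) ∧
              ∑ b, (e b : ℤ) * P.ord (f b) ≤ P.ord η + C1 * (j + 1))
    (lam : Fin p → ℝ) (hn : NefF N δ lam) (P : Place ℂ K)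
    (hP : Divisorial N P) :
    ∃ t : Fin N0 → ℝ, (∀ b, 0 ≤ t b) ∧ (∀ i, lam i = ∑ b, t b * g b i) ∧ ∀ b, t b ≠ 0 →
      (P.ord (f b) : ℚ) ≤ - ∑ i, (g b i : ℚ) * δ i P := by
  classical
  obtain ⟨S, ⟨s0, hs0, hs00⟩, hnef⟩ := hn
  obtain ⟨a, ha⟩ : ∃ a : Fin N0 → ℝ, a = fun b => (P.ord (f b) : ℝ) +
    ∑ i, (g b i : ℝ) * (δ i P : ℝ) := ⟨_, rfl⟩
  have ha0 : ∀ b, 0 ≤ a b := by
    intro b
    have h1 := ((hg b).2.2 P hP).resolve_left (hg b).2.1
    have h2 : ((- ∑ i, (g b i : ℚ) * δ i P : ℚ) : ℝ) ≤ ((P.ord (f b) : ℚ) : ℝ) := by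
      exact_mod_cast h1
    push_cast at h2
    rw [ha]
    dsimp only
    linarith
  obtain ⟨C1, hC1⟩ := hord P S
  obtain ⟨K0, hK0⟩ : ∃ K0 : ℝ, K0 = |(P.ord s0 : ℝ)| + 2 * C1 * (1 + ∑ i, |(δ i P : ℝ)|) :=
    ⟨_, rfl⟩
  have hK00 : 0 ≤ K0 := by
    rw [hK0]
    positivity
  obtain ⟨t, ht0, ht⟩ := cone_closed (p := p + 1)
    (fun b => Fin.cases (a b) fun i => ((g b i : ℕ) : ℝ)) (fun b i => by
      refine Fin.cases ?_ (fun i => ?_) i
      · exact ha0 b
      · simp) (fun b => by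
      rw [Fin.sum_univ_succ]
      simp only [Fin.cases_zero, Fin.cases_succ]
      have h1 : ∃ i, g b i ≠ 0 := by
        by_contra hcon
        push Not at hcon
        exact (hg b).1 (Finsupp.ext hcon)
      obtain ⟨i, hi⟩ := h1
      have h2 : (1 : ℝ) ≤ g b i := by
        have : 1 ≤ g b i := Nat.one_le_iff_ne_zero.2 hi
        exact_mod_cast this
      have h3 := h2.trans (Finset.single_le_sum (f := fun i => ((g b i : ℕ) : ℝ))
        (fun i _ => by positivity) (Finset.mem_univ i))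
      have h4 := ha0 b
      linarith) (Fin.cases 0 lam) (fun ε hε => by
      obtain ⟨M1, hM1⟩ := exists_nat_gt ((2 * C1 + 1 + K0) / ε)
      rw [div_lt_iff₀ hε] at hM1
      obtain ⟨M, hM⟩ : ∃ M, M = 1 + M1 := ⟨_, rfl⟩
      have hMM : (M1 : ℝ) ≤ M := by
        rw [hM]
        push_cast
        linarith
      have hMε : 2 * C1 + 1 + K0 < (M : ℝ) * ε :=
        lt_of_lt_of_le hM1 (mul_le_mul_of_nonneg_right hMM hε.le)
      have hMpos : (0 : ℝ) < M := by
        have : 0 < M := by omega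
        exact_mod_cast this
      obtain ⟨j, hj, hjP⟩ := hnef M (by omega)
      obtain ⟨μ, hμ, η, hη, hη0, hle⟩ := hjP P hP
      obtain ⟨e, he1, he2⟩ := (hC1 μ j η hη).resolve_left hη0
      have hj0' : (1 : ℝ) ≤ j := by exact_mod_cast hj
      have hjM : (0 : ℝ) < j * M := by positivity
      have hC0 : (0 : ℝ) ≤ C1 := by positivity
      have h1 : ∀ i, |∑ b, (e b : ℝ) * g b i - μ i| ≤ C1 * (j + 1) := by
        intro i
        have h2 := he1 i
        have h3 : ((|∑ b, (e b : ℤ) * g b i - μ i| : ℤ) : ℝ) ≤ ((C1 * (j + 1) : ℤ) : ℝ) := by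
          exact_mod_cast h2
        push_cast at h3
        exact h3
      refine ⟨fun b => (e b : ℝ) / (j * M), fun b => by positivity, fun i => ?_⟩
      refine Fin.cases ?_ (fun i => ?_) i
      · simp only [Fin.cases_zero, sub_zero]
        have h2 : ∑ b, (e b : ℝ) / (j * M) * a b = (∑ b, (e b : ℝ) * a b) / (j * M) := by
          rw [Finset.sum_div]
          exact Finset.sum_congr rfl fun b _ => by ring
        have h3 : 0 ≤ ∑ b, (e b : ℝ) * a b :=
          Finset.sum_nonneg fun b _ => mul_nonneg (by positivity) (ha0 b)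
        rw [h2, abs_of_nonneg (div_nonneg h3 hjM.le), div_le_iff₀ hjM]
        have h4 : ∑ b, (e b : ℝ) * a b = ∑ b, (e b : ℝ) * P.ord (f b) +
            ∑ i, (∑ b, (e b : ℝ) * g b i) * (δ i P : ℝ) := by
          rw [ha]
          simp only [mul_add, Finset.sum_add_distrib, Finset.mul_sum, Finset.sum_mul]
          congr 1
          rw [Finset.sum_comm]
          exact Finset.sum_congr rfl fun i _ => Finset.sum_congr rfl fun b _ => by ring
        have h5 : ∑ b, (e b : ℝ) * P.ord (f b) ≤ P.ord η + C1 * (j + 1) := by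
          exact_mod_cast he2
        have h6 : (P.ord η : ℝ) ≤ j * P.ord s0 - ∑ i, (μ i : ℝ) * (δ i P : ℝ) := by
          have h7 := hle s0 hs0 hs00
          have h9 : (((P.ord η : ℚ)) : ℝ) ≤
              (((j : ℚ) * P.ord s0 - ∑ i, (μ i : ℚ) * δ i P : ℚ) : ℝ) := by
            exact_mod_cast h7
          push_cast at h9
          exact h9
        have h7 : ∑ i, (∑ b, (e b : ℝ) * g b i) * (δ i P : ℝ) ≤
            ∑ i, (μ i : ℝ) * (δ i P : ℝ) + C1 * (j + 1) * ∑ i, |(δ i P : ℝ)| := by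
          rw [Finset.mul_sum, ← Finset.sum_add_distrib]
          refine Finset.sum_le_sum fun i _ => ?_
          have h8 : (∑ b, (e b : ℝ) * g b i) * (δ i P : ℝ) = μ i * (δ i P : ℝ) +
              (∑ b, (e b : ℝ) * g b i - μ i) * (δ i P : ℝ) := by ring
          rw [h8]
          have h9 : (∑ b, (e b : ℝ) * g b i - μ i) * (δ i P : ℝ) ≤
              C1 * (j + 1) * |(δ i P : ℝ)| := by
            refine (le_abs_self _).trans ?_
            rw [abs_mul]
            exact mul_le_mul_of_nonneg_right (h1 i) (abs_nonneg _)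
          linarith
        have h8 : (j : ℝ) * P.ord s0 ≤ j * |(P.ord s0 : ℝ)| :=
          mul_le_mul_of_nonneg_left (le_abs_self _) (by linarith)
        have h9 : (C1 : ℝ) * (j + 1) * (1 + ∑ i, |(δ i P : ℝ)|) ≤
            j * (2 * C1 * (1 + ∑ i, |(δ i P : ℝ)|)) := by
          have h10 : (0 : ℝ) ≤ C1 * (1 + ∑ i, |(δ i P : ℝ)|) := by positivity
          nlinarith
        have h10 : ∑ b, (e b : ℝ) * a b ≤ j * K0 := by
          rw [h4, hK0]
          linarith
        have h11 : (j : ℝ) * K0 ≤ j * (M * ε) :=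
          mul_le_mul_of_nonneg_left (by linarith) (by linarith)
        linarith
      · simp only [Fin.cases_succ]
        have h2 : ∑ b, (e b : ℝ) / (j * M) * g b i - lam i =
            ((∑ b, (e b : ℝ) * g b i - μ i) + (μ i - j * M * lam i)) / (j * M) := by
          rw [eq_div_iff hjM.ne', sub_mul, Finset.sum_mul]
          have h3 : ∀ b, (e b : ℝ) / (j * M) * g b i * (j * M) = (e b : ℝ) * g b i := by
            intro b
            field_simp
          rw [Finset.sum_congr rfl fun b _ => h3 b]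
          ring
        rw [h2, abs_div, abs_of_pos hjM, div_le_iff₀ hjM]
        have h3 := (abs_add_le (∑ b, (e b : ℝ) * g b i - μ i) (μ i - j * M * lam i)).trans
          (add_le_add (h1 i) (hμ i))
        refine h3.trans ?_
        have h4 : (C1 : ℝ) * (j + 1) + j ≤ (2 * C1 + 1) * j := by nlinarith
        have h5 : (j : ℝ) * (2 * C1 + 1) ≤ j * (M * ε) :=
          mul_le_mul_of_nonneg_left (by linarith) (by linarith)
        nlinarith)
  refine ⟨t, ht0, fun i => ?_, fun b hb => ?_⟩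
  · have h1 := ht i.succ
    simpa only [Fin.cases_succ] using h1
  · have h1 := ht 0
    simp only [Fin.cases_zero] at h1
    have h2 := (Finset.sum_eq_zero_iff_of_nonneg fun b _ => mul_nonneg (ht0 b) (ha0 b)).1 h1.symm b
      (Finset.mem_univ b)
    have h3 : a b = 0 := (mul_eq_zero.1 h2).resolve_left hb
    rw [ha] at h3
    dsimp only at h3
    have h4 : ((P.ord (f b) : ℚ) : ℝ) ≤ ((- ∑ i, (g b i : ℚ) * δ i P : ℚ) : ℝ) := by
      push_cast
      linarith
    exact_mod_cast h4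

end Pool.Agent.Q57.FT
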