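import Pool.Agent.Q57.FT.Nef

/-!
The asymptotic orders for toroidal divisors with arbitrary signs.
-/

set_option autoImplicit false
set_option linter.overlappingInstances false
set_option linter.unusedSectionVars false
set_option maxHeartbeats 1000000

open FF MvPolynomial Pool.Agent.W603.LV Pool.Agent.W602.GT Pool.Agent.W602.Cov
open Pool.Agent.TH756.PR Pool.Agent.TH122.AB Pool.Agent.TH756.PN
open Pool.Agent.Y169.CH Pool.Agent.Y169.CH.Cvr Pool.Agent.Q57.TP Pool.Agent.Q57.TQ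
open Pool.Agent.Q57.GM Pool.Agent.Q57.GH Pool.Agent.Q57.FG Pool.Agent.Q57.GG

namespace Pool.Agent.Q57.FT

variable {r R N' p : ℕ} {n : Fin r → ℕ} {K : Type} [Field K] [Algebra ℂ K]
  {e : ((i : Fin r) × Fin (n i)) ≃ Fin (N' + 1)} {Φ : Blk ℂ (N' + 1) r} {C : Cvr Φ K R}
  {dF : Fin r → ℕ} {x : ∀ i, Fin (n i + 1) → K} {F : ∀ i, MvPolynomial (Fin (n i + 1)) ℂ}
  {c : Fin p → (Fin r → ℕ) → ℚ} {β : Fin p → Fin r → ℤ} {δ : Fin p → Place ℂ K → ℚ}

/-- the product of the equations -/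
noncomputable def tht (x : ∀ i, Fin (n i + 1) → K) (F : ∀ i, MvPolynomial (Fin (n i + 1)) ℂ) : K :=
  ∏ i, aeval (x i) (F i)

theorem tht_ne (H : Mon e C dF x F) : tht x F ≠ 0 :=
  Finset.prod_ne_zero_iff.2 fun i _ => H.hFx i

theorem ord_tht (H : Mon e C dF x F) {P : Place ℂ K} {α : Fin r → ℤ} {l : ∀ i, Fin (n i + 1)}
    {v : Fin r → ℕ} (h : DatH P dF x F α l v) :
    P.ord (tht x F) = ∑ i, ((dF i : ℤ) * α i + v i) := by
  unfold tht
  rw [ord_prod' P Finset.univ _ fun i _ => H.hFx i]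
  exact Finset.sum_congr rfl fun i _ => h.hv i

/-- the sections after adding multiples of the divisor of `tht` -/
theorem fsecA_shift (H : Mon e C dF x F) {t0 : ℕ} {S : Finset K} {μ : Fin p →₀ ℕ} {j : ℕ} {f : K}
    (h : FSecA (N' + 1) δ S μ j f) :
    FSecA (N' + 1) (fun i P => δ i P - t0 * P.ord (tht x F)) S μ j
      (f * tht x F ^ (t0 * ∑ i, μ i)) := by
  intro P hP
  by_cases hf : f = 0
  · left
    rw [hf, zero_mul]
  obtain ⟨s, hs, hs0, hle⟩ := (h P hP).resolve_left hf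
  refine Or.inr ⟨s, hs, hs0, ?_⟩
  rw [P.ord_mul hf (pow_ne_zero _ (tht_ne H)), P.ord_pow]
  have h1 : ∑ i, (μ i : ℚ) * (δ i P - t0 * P.ord (tht x F)) = ∑ i, (μ i : ℚ) * δ i P -
      t0 * (∑ i, (μ i : ℚ)) * P.ord (tht x F) := by
    rw [Finset.mul_sum, Finset.sum_mul, ← Finset.sum_sub_distrib]
    exact Finset.sum_congr rfl fun i _ => by ring
  rw [h1]
  push_cast
  linarith

theorem fsec_unshift (H : Mon e C dF x F) {t0 : ℕ} {μ : Fin p →₀ ℕ} {f : K}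
    (h : FSec (N' + 1) (fun i P => δ i P - t0 * P.ord (tht x F)) μ
      (f * tht x F ^ (t0 * ∑ i, μ i))) :
    FSec (N' + 1) δ μ f := by
  intro P hP
  by_cases hf : f = 0
  · exact Or.inl hf
  right
  have h0 := (h P hP).resolve_left (mul_ne_zero hf (pow_ne_zero _ (tht_ne H)))
  rw [P.ord_mul hf (pow_ne_zero _ (tht_ne H)), P.ord_pow] at h0
  have h1 : ∑ i, (μ i : ℚ) * (δ i P - t0 * P.ord (tht x F)) = ∑ i, (μ i : ℚ) * δ i P -
      t0 * (∑ i, (μ i : ℚ)) * P.ord (tht x F) := by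
    rw [Finset.mul_sum, Finset.sum_mul, ← Finset.sum_sub_distrib]
    exact Finset.sum_congr rfl fun i _ => by ring
  rw [h1] at h0
  push_cast at h0
  linarith

theorem coefT_shift (H : Mon e C dF x F) {c : (Fin r → ℕ) → ℚ} {β : Fin r → ℤ}
    {δ : Place ℂ K → ℚ} (h : CoefT dF x F c β δ) (t0 : ℕ) :
    CoefT dF x F (fun v => c v - t0 * ∑ k, (v k : ℚ)) (fun t => β t + t0 * dF t)
      (fun P => δ P - t0 * P.ord (tht x F)) := by
  refine ⟨?_, fun P α l v hdat => ?_⟩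
  · rw [h.h0]
    simp
  · rw [h.hδ P α l v hdat, ord_tht H hdat]
    push_cast
    rw [Finset.sum_add_distrib]
    have h1 : ∑ t, ((β t : ℚ) + t0 * dF t) * (α t : ℚ) = ∑ t, (β t : ℚ) * α t +
        t0 * ∑ i, (dF i : ℚ) * α i := by
      rw [Finset.mul_sum, ← Finset.sum_add_distrib]
      exact Finset.sum_congr rfl fun t _ => by ring
    rw [h1]
    ring

/-- **The asymptotic orders**, for toroidal divisors with arbitrary signs. -/
theorem geoS (H : Mon e C dF x F) (hdF : ∀ i, 1 ≤ dF i) (hΦ : Smo Φ)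
    (hcf : ∀ i, CoefT dF x F (c i) (β i) (δ i)) {t0 : ℕ}
    (hle : ∀ i v, Adm C.M C.a v → c i v ≤ t0 * ∑ k, (v k : ℚ))
    (hmul : ∀ i v (r : ℕ), 1 ≤ r → Adm C.M C.a v → - c i (r • v) ≤ r * (- c i v))
    {T : Finset (Fin r → ℕ)} (hTadm : ∀ s ∈ T, Adm C.M C.a s)
    (hTgen : ∀ v, Adm C.M C.a v → ∃ w : (Fin r → ℕ) → ℚ, (∀ s, 0 ≤ w s) ∧
      (∀ k, (v k : ℚ) = ∑ s ∈ T, w s * s k) ∧ ∀ i, - c i v ≤ ∑ s ∈ T, w s * (- c i s)) :
    ∃ (N0 : ℕ) (g : Fin N0 → Fin p →₀ ℕ) (f : Fin N0 → K),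
      (∀ b, g b ≠ 0 ∧ f b ≠ 0 ∧ FSec (N' + 1) δ (g b) (f b)) ∧
      (∀ b, ∃ (y : Fin r → ℤ) (l : ∀ i, Fin (n i + 1)), f b = fT dF x F (bt β (g b)) y l ∧
        (∀ t, (dF t : ℤ) * y t ≤ bt β (g b) t) ∧
        ∀ v, Adm C.M C.a v → ∑ i, (g b i : ℚ) * (- c i v) ≤
          ((∑ k, (v k : ℤ) * y k : ℤ) : ℚ)) ∧
      (∀ (P : Place ℂ K) (S : Finset K), ∃ C1 : ℕ,
        ∀ (μ : Fin p →₀ ℕ) (j : ℕ) (η : K), FSecA (N' + 1) δ S μ j η → η = 0 ∨
            ∃ e : Fin N0 → ℕ,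
              (∀ i, |∑ b, (e b : ℤ) * g b i - μ i| ≤ C1 * (j + 1)) ∧
              ∑ b, (e b : ℤ) * P.ord (f b) ≤ P.ord η + C1 * (j + 1)) := by
  classical
  obtain ⟨N0, g, f', h1, h2, h3⟩ := geoT (c := fun i v => c i v - t0 * ∑ k, (v k : ℚ))
    (β := fun i t => β i t + t0 * dF t) (δ := fun i P => δ i P - t0 * P.ord (tht x F)) (T := T)
    H hdF hΦ (fun i => coefT_shift H (hcf i) t0) (fun i v hv => by
      have := hle i v hv
      linarith) (fun i v k hk hv => by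
      have h1 := hmul i v k hk hv
      have h2 : ∑ j, (((k • v) j : ℕ) : ℚ) = k * ∑ j, (v j : ℚ) := by
        rw [Finset.mul_sum]
        refine Finset.sum_congr rfl fun j _ => ?_
        simp only [Pi.smul_apply, smul_eq_mul]
        push_cast
        ring
      rw [h2]
      have h3 : (k : ℚ) * -(c i v - t0 * ∑ j, (v j : ℚ)) = k * (- c i v) +
          t0 * (k * ∑ j, (v j : ℚ)) := by ring
      rw [h3]
      linarith) hTadm (fun v hv => by
      obtain ⟨w, hw, hwv, hwc⟩ := hTgen v hv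
      refine ⟨w, hw, fun k => (hwv k).ge, fun i => ?_⟩
      have h1 := hwc i
      have h2 : ∑ k, (v k : ℚ) = ∑ s ∈ T, w s * ∑ k, (s k : ℚ) := by
        rw [Finset.sum_congr rfl fun k _ => hwv k, Finset.sum_comm]
        exact Finset.sum_congr rfl fun s _ => (Finset.mul_sum _ _ _).symm
      have h3 : ∑ s ∈ T, w s * -(c i s - t0 * ∑ k, (s k : ℚ)) = ∑ s ∈ T, w s * (- c i s) +
          t0 * ∑ k, (v k : ℚ) := by
        rw [h2, Finset.mul_sum, ← Finset.sum_add_distrib]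
        exact Finset.sum_congr rfl fun s _ => by ring
      rw [h3]
      linarith)
  have hθ := tht_ne H
  have hbt : ∀ μ : Fin p →₀ ℕ, ∀ t, bt (fun i t => β i t + t0 * dF t) μ t =
      bt β μ t + t0 * (∑ i, μ i : ℕ) * dF t := by
    intro μ t
    unfold bt
    push_cast
    rw [Finset.mul_sum, Finset.sum_mul, ← Finset.sum_add_distrib]
    exact Finset.sum_congr rfl fun i _ => by ring
  obtain ⟨f, hf⟩ : ∃ f : Fin N0 → K, f = fun b => f' b * (tht x F ^ (t0 * ∑ i, g b i))⁻¹ :=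
    ⟨_, rfl⟩
  have hff : ∀ b, f b * tht x F ^ (t0 * ∑ i, g b i) = f' b := by
    intro b
    rw [hf]
    dsimp only
    rw [mul_assoc, inv_mul_cancel₀ (pow_ne_zero _ hθ), mul_one]
  have hf0 : ∀ b, f b ≠ 0 := by
    intro b h0
    apply (h1 b).2.1
    rw [← hff b, h0, zero_mul]
  refine ⟨N0, g, f, fun b => ⟨(h1 b).1, hf0 b, fsec_unshift (t0 := t0) H (by
    rw [hff]
    exact (h1 b).2.2)⟩, fun b => ?_, fun P S => ?_⟩
  · obtain ⟨y, l, h4, h5, h6⟩ := h2 b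
    obtain ⟨m, hm⟩ : ∃ m : ℕ, m = ∑ i, g b i := ⟨_, rfl⟩
    refine ⟨fun k => y k - t0 * m, l, ?_, fun t => ?_, fun v hv => ?_⟩
    · apply mul_right_cancel₀ (pow_ne_zero (t0 * ∑ i, g b i) hθ)
      rw [hff, h4, ← hm]
      unfold fT tht
      rw [← Finset.prod_pow, ← Finset.prod_mul_distrib]
      refine Finset.prod_congr rfl fun i _ => ?_
      rw [hbt, ← hm]
      have h7 : bt β (g b) i + t0 * (m : ℤ) * dF i - dF i * y i =
          bt β (g b) i - dF i * (y i - t0 * m) := by ring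
      rw [h7, ← zpow_natCast (aeval (x i) (F i)) (t0 * m)]
      have h8 : aeval (x i) (F i) ^ y i = aeval (x i) (F i) ^ (y i - t0 * m) *
          aeval (x i) (F i) ^ ((t0 * m : ℕ) : ℤ) := by
        rw [← zpow_add₀ (H.hFx i)]
        congr 1
        push_cast
        ring
      rw [h8]
      ring
    · have h7 := h5 t
      rw [hbt, ← hm] at h7
      have h8 : (dF t : ℤ) * (y t - t0 * m) = dF t * y t - t0 * m * dF t := by ring
      rw [h8]
      linarith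
    · have h7 := h6 v hv
      have h8 : ∑ i, (g b i : ℚ) * -(c i v - t0 * ∑ k, (v k : ℚ)) =
          ∑ i, (g b i : ℚ) * (- c i v) + t0 * m * ∑ k, (v k : ℚ) := by
        obtain ⟨V, hV⟩ : ∃ V : ℚ, V = ∑ k, (v k : ℚ) := ⟨_, rfl⟩
        rw [← hV, hm, Nat.cast_sum, Finset.mul_sum, Finset.sum_mul, ← Finset.sum_add_distrib]
        exact Finset.sum_congr rfl fun i _ => by ring
      have h9 : ((∑ k, (v k : ℤ) * (y k - t0 * m) : ℤ) : ℚ) =
          ((∑ k, (v k : ℤ) * y k : ℤ) : ℚ) - t0 * m * ∑ k, (v k : ℚ) := by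
        push_cast
        rw [Finset.mul_sum, ← Finset.sum_sub_distrib]
        exact Finset.sum_congr rfl fun k _ => by ring
      rw [h8] at h7
      rw [h9]
      linarith
  · obtain ⟨C1, hC1⟩ := h3 P S
    obtain ⟨θ, hθd⟩ : ∃ θ : ℤ, θ = P.ord (tht x F) := ⟨_, rfl⟩
    obtain ⟨C2, hC2⟩ : ∃ C2 : ℕ, (C2 : ℤ) = C1 + t0 * |θ| * (p * C1) := by
      have h4 : 0 ≤ (C1 : ℤ) + t0 * |θ| * (p * C1) := by positivity
      exact ⟨_, Int.toNat_of_nonneg h4⟩
    have hC12 : (C1 : ℤ) ≤ C2 := by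
      rw [hC2]
      have : 0 ≤ (t0 : ℤ) * |θ| * (p * C1) := by positivity
      linarith
    refine ⟨C2, fun μ j η hη => ?_⟩
    by_cases hη0 : η = 0
    · exact Or.inl hη0
    right
    obtain ⟨e, he1, he2⟩ := (hC1 μ j _ (fsecA_shift (t0 := t0) H hη)).resolve_left
      (mul_ne_zero hη0 (pow_ne_zero _ hθ))
    refine ⟨e, fun i => (he1 i).trans (mul_le_mul_of_nonneg_right hC12 (by positivity)), ?_⟩
    rw [P.ord_mul hη0 (pow_ne_zero _ hθ), P.ord_pow, ← hθd] at he2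
    have h4 : ∀ b, P.ord (f' b) = P.ord (f b) + ((t0 * ∑ i, g b i : ℕ) : ℤ) * θ := by
      intro b
      rw [← hff b, P.ord_mul (hf0 b) (pow_ne_zero _ hθ), P.ord_pow, hθd]
    have h5 : ∑ b, (e b : ℤ) * P.ord (f' b) = ∑ b, (e b : ℤ) * P.ord (f b) +
        t0 * θ * ∑ i, ∑ b, (e b : ℤ) * g b i := by
      have h6 : ∑ i, ∑ b, (e b : ℤ) * (g b i : ℤ) = ∑ b, (e b : ℤ) * ((∑ i, g b i : ℕ) : ℤ) := by
        rw [Finset.sum_comm]
        refine Finset.sum_congr rfl fun b _ => ?_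
        push_cast
        rw [Finset.mul_sum]
      rw [h6, Finset.mul_sum, ← Finset.sum_add_distrib]
      refine Finset.sum_congr rfl fun b _ => ?_
      rw [h4]
      push_cast
      ring
    rw [h5] at he2
    have h6 : |∑ i, ∑ b, (e b : ℤ) * g b i - ∑ i, (μ i : ℤ)| ≤ p * (C1 * (j + 1)) := by
      rw [← Finset.sum_sub_distrib]
      refine (Finset.abs_sum_le_sum_abs _ _).trans ?_
      refine (Finset.sum_le_sum fun i _ => he1 i).trans (le_of_eq ?_)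
      simp
    have h7 : |t0 * θ * (∑ i, (μ i : ℤ) - ∑ i, ∑ b, (e b : ℤ) * g b i)| ≤
        t0 * |θ| * (p * (C1 * (j + 1))) := by
      rw [abs_mul, abs_mul, abs_sub_comm]
      have h8 : |(t0 : ℤ)| = t0 := abs_of_nonneg (by positivity)
      rw [h8]
      exact mul_le_mul_of_nonneg_left h6 (by positivity)
    have h8 := (abs_le.1 h7).2
    rw [hC2]
    push_cast at he2 ⊢
    have h9 : t0 * θ * (∑ i, (μ i : ℤ) - ∑ i, ∑ b, (e b : ℤ) * (g b i : ℤ)) =
        t0 * (∑ i, (μ i : ℤ)) * θ - t0 * θ * ∑ i, ∑ b, (e b : ℤ) * (g b i : ℤ) := by ring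
    rw [h9] at h8
    linarith

end Pool.Agent.Q57.FT
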